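import Pool.Agent.P.MP_1ad12f_an.Bridge

set_option autoImplicit false

open MeasureTheory FourierTransform Complex Filter Topology Metric
open scoped ContDiff Real InnerProductSpace SchwartzMap

namespace Pool.Agent.P.MP_1ad12f_an

variable {d : ℕ}

/-- The algebra generated by constants, characters and `Wien` functions. -/
inductive Alg : (E d → ℂ) → Prop
  | const (c : ℂ) : Alg fun _ => c
  | char (ξ : E d) : Alg fun x => ch x ξ
  | wien {F : E d → ℂ} : Wien F → Alg F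
  | add {F G : E d → ℂ} : Alg F → Alg G → Alg fun x => F x + G x
  | mul {F G : E d → ℂ} : Alg F → Alg G → Alg fun x => F x * G x

theorem Alg.bound {F : E d → ℂ} (h : Alg F) : ∃ M, ∀ x, ‖F x‖ ≤ M := by
  induction h with
  | const c => exact ⟨‖c‖, fun _ => le_rfl⟩
  | char ξ => exact ⟨1, fun x => (norm_ch x ξ).le⟩
  | wien h => exact h.bound
  | add _ _ h1 h2 =>
    obtain ⟨M, h1⟩ := h1
    obtain ⟨N, h2⟩ := h2
    exact ⟨M + N, fun x => (norm_add_le _ _).trans (add_le_add (h1 x) (h2 x))⟩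
  | mul _ _ h1 h2 =>
    obtain ⟨M, h1⟩ := h1
    obtain ⟨N, h2⟩ := h2
    exact ⟨M * N, fun x => (norm_mul_le _ _).trans
      (mul_le_mul (h1 x) (h2 x) (norm_nonneg _) ((norm_nonneg _).trans (h1 x)))⟩

theorem fderiv_ch (ξ x v : E d) :
    fderiv ℝ (fun x => ch x ξ) x v = ((2 * π * ⟪v, ξ⟫_ℝ : ℝ) : ℂ) * I * ch x ξ := by
  let L : E d →L[ℝ] ℂ := Complex.ofRealCLM.comp ((2 * π) • innerSL ℝ ξ)
  have hL : ∀ y, L y = ((2 * π * ⟪y, ξ⟫_ℝ : ℝ) : ℂ) := fun y => by
    simp [L, real_inner_comm]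
  have h1 : (fun x => ch x ξ) = fun x => exp (L x * I) := by
    ext y
    rw [hL, ch]
  rw [h1, ((L.hasFDerivAt (x := x)).mul_const I).cexp.fderiv]
  simp only [smul_apply, hL, ch, smul_eq_mul]
  ring

theorem Wien.diff {F : E d → ℂ} (h : Wien F) :
    Differentiable ℝ F ∧ ∀ v, Wien fun x => fderiv ℝ F x v := by
  obtain ⟨g, hg, ⟨R, hR⟩, rfl⟩ := h
  have h1 : Integrable fun v => ‖v‖ * ‖g v‖ := by
    refine (hg.norm.const_mul R).mono' (continuous_norm.aestronglyMeasurable.mul hg.1.norm)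
      (Eventually.of_forall fun v => ?_)
    rw [Real.norm_of_nonneg (by positivity)]
    rcases lt_or_ge R ‖v‖ with h | h
    · simp [hR v h]
    · exact mul_le_mul_of_nonneg_right h (norm_nonneg _)
  have h2 : Integrable (VectorFourier.fourierSMulRight (innerSL ℝ) g) := by
    refine (h1.const_mul (2 * π * ‖(innerSL ℝ : E d →L[ℝ] E d →L[ℝ] ℝ)‖)).mono'
      hg.1.fourierSMulRight (Eventually.of_forall fun v => ?_)
    rw [← mul_assoc]
    exact VectorFourier.norm_fourierSMulRight_le _ _ _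
  refine ⟨Real.differentiable_fourier hg h1, fun v =>
    ⟨fun w => VectorFourier.fourierSMulRight (innerSL ℝ) g w v, h2.apply_continuousLinearMap v,
      ⟨R, fun w hw => by simp [hR w hw]⟩, ?_⟩⟩
  ext x
  rw [Real.fderiv_fourier hg h1, Real.fourier_continuousLinearMap_apply h2]

theorem Alg.diff {F : E d → ℂ} (h : Alg F) :
    Differentiable ℝ F ∧ ∀ v, Alg fun x => fderiv ℝ F x v := by
  induction h with
  | const c => exact ⟨differentiable_const c, fun v => by simpa using Alg.const 0⟩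
  | char ξ =>
    refine ⟨(contDiff_ch ξ).differentiable (by simp), fun v => ?_⟩
    simp only [fderiv_ch]
    exact (Alg.const _).mul (Alg.char ξ)
  | wien h => exact ⟨h.diff.1, fun v => Alg.wien (h.diff.2 v)⟩
  | add _ _ h1 h2 =>
    refine ⟨h1.1.fun_add h2.1, fun v => ?_⟩
    simp only [fun x => fderiv_fun_add (h1.1 x) (h2.1 x), add_apply]
    exact (h1.2 v).add (h2.2 v)
  | mul a1 a2 h1 h2 =>
    refine ⟨h1.1.fun_mul h2.1, fun v => ?_⟩
    simp only [fun x => fderiv_fun_mul (h1.1 x) (h2.1 x), add_apply,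
      smul_apply, smul_eq_mul]
    exact (a1.mul (h2.2 v)).add (a2.mul (h1.2 v))

theorem spec_shift {F : E d → ℂ} {R r : ℝ}
    (h : ∀ φ : E d → ℂ, ContDiff ℝ ∞ φ → HasCompactSupport φ → (∀ ξ, ‖ξ‖ ≤ R → φ ξ = 0) →
      ∫ x, 𝓕 φ x * F x = 0) {φ : E d → ℂ} (h1 : ContDiff ℝ ∞ φ) (h2 : HasCompactSupport φ)
    (h3 : ∀ ξ, ‖ξ‖ ≤ R + r → φ ξ = 0) {v : E d} (hv : ‖v‖ ≤ r) :
    ∫ x, ch x v * (𝓕 φ x * F x) = 0 := by
  rw [← h (fun w => φ (w + v)) (h1.comp (contDiff_id.add contDiff_const))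
    (h2.comp_homeomorph (Homeomorph.addRight v))
    fun ξ hξ => h3 _ ((norm_add_le _ _).trans (add_le_add hξ hv))]
  congr 1
  ext x
  rw [← mul_assoc, fourier_ch, fourier_ch, ← integral_const_mul,
    ← integral_add_right_eq_self _ v]
  congr 2
  ext w
  have : ch x v * ch v (-x) = 1 := by rw [ch_comm x, ← ch_add, add_neg_cancel, ch_zero]
  rw [ch_add_left]
  linear_combination (ch w (-x) * φ (w + v)) * this

theorem Alg.mult {a : E d → ℂ} (h : Alg a) : ∀ F : E d → ℂ, Continuous F → (∃ M, ∀ x, ‖F x‖ ≤ M) →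
    CompactSpectrum F → CompactSpectrum fun x => a x * F x := by
  induction h with
  | const c =>
    rintro F - - ⟨R, hR⟩
    refine ⟨R, fun φ h1 h2 h3 => ?_⟩
    simp only [mul_left_comm _ c, integral_const_mul, hR φ h1 h2 h3, mul_zero]
  | char ξ =>
    rintro F - - ⟨R, hR⟩
    refine ⟨R + ‖ξ‖, fun φ h1 h2 h3 => ?_⟩
    simp only [mul_left_comm _ (ch _ ξ)]
    exact spec_shift hR h1 h2 h3 le_rfl
  | wien h =>
    rintro F hF ⟨M, hM⟩ ⟨R, hR⟩
    obtain ⟨g, hg, ⟨r, hr⟩, rfl⟩ := h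
    refine ⟨R + r, fun φ h1 h2 h3 => ?_⟩
    simp only [mul_left_comm _ (𝓕 g _)]
    rw [fourier_flip hg (integrable_mul_bdd (integrable_fourier_test h1 h2) hF hM)]
    refine integral_eq_zero_of_ae (Eventually.of_forall fun v => ?_)
    rcases lt_or_ge r ‖v‖ with h | h
    · simp [hr v h]
    · simp only [fourier_ch _ v]
      rw [spec_shift hR h1 h2 h3 (by simpa using h), mul_zero, Pi.zero_apply]
  | @add a b a1 a2 i1 i2 =>
    rintro F hF ⟨M, hM⟩ hc
    obtain ⟨R, hR⟩ := i1 F hF ⟨M, hM⟩ hc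
    obtain ⟨R', hR'⟩ := i2 F hF ⟨M, hM⟩ hc
    refine ⟨max R R', fun φ h1 h2 h3 => ?_⟩
    have k : ∀ {c : E d → ℂ}, Alg c → Integrable fun x => 𝓕 φ x * (c x * F x) := fun hc => by
      obtain ⟨N, hN⟩ := hc.bound
      exact integrable_mul_bdd (integrable_fourier_test h1 h2) (hc.diff.1.continuous.mul hF)
        (M := N * M) fun x => (norm_mul_le _ _).trans
          (mul_le_mul (hN x) (hM x) (norm_nonneg _) ((norm_nonneg _).trans (hN x)))
    simp only [add_mul, mul_add]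
    rw [integral_add (k a1) (k a2), hR φ h1 h2 fun ξ h => h3 ξ (h.trans (le_max_left _ _)),
      hR' φ h1 h2 fun ξ h => h3 ξ (h.trans (le_max_right _ _)), add_zero]
  | @mul a b a1 a2 i1 i2 =>
    rintro F hF ⟨M, hM⟩ hc
    obtain ⟨N, hN⟩ := a2.bound
    simp only [mul_assoc]
    exact i1 _ (a2.diff.1.continuous.mul hF) ⟨N * M, fun x => (norm_mul_le _ _).trans
      (mul_le_mul (hN x) (hM x) (norm_nonneg _) ((norm_nonneg _).trans (hN x)))⟩
      (i2 F hF ⟨M, hM⟩ hc)

theorem Alg.spec {a : E d → ℂ} (h : Alg a) : CompactSpectrum a := by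
  have := h.mult (fun _ => 1) continuous_const ⟨1, fun _ => by simp⟩ ⟨0, fun φ h1 h2 h3 => by
    have h0 := congrFun (h1.continuous.fourierInv_fourier_eq (integrable_test h1 h2)
      (integrable_fourier_test h1 h2)) 0
    rw [fourierInv_ch] at h0
    simp only [ch_zero, one_mul] at h0
    simp only [mul_one]
    rw [h0, h3 0 (by simp)]⟩
  simpa using this

/-- The real valued members of `Alg`. -/
def RA (d : ℕ) : Subring (E d → ℝ) where
  carrier := {a | Alg fun x => (a x : ℂ)}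
  mul_mem' := fun h1 h2 => by simpa using Alg.mul h1 h2
  add_mem' := fun h1 h2 => by simpa using Alg.add h1 h2
  one_mem' := by simpa using Alg.const (d := d) 1
  zero_mem' := by simpa using Alg.const (d := d) 0
  neg_mem' := fun h => by simpa using (Alg.const (-1)).mul h

theorem RA.const (c : ℝ) : (fun _ => c) ∈ RA d := Alg.const (c : ℂ)

theorem RA.diff {a : E d → ℝ} (h : a ∈ RA d) :
    Differentiable ℝ a ∧ ∀ v, (fun x => fderiv ℝ a x v) ∈ RA d := by
  have h1 : Differentiable ℝ a := Complex.reCLM.differentiable.comp (Alg.diff h).1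
  refine ⟨h1, fun v => ?_⟩
  have h2 := (Alg.diff h).2 v
  have h3 : ∀ x, fderiv ℝ (fun x => (a x : ℂ)) x = Complex.ofRealCLM.comp (fderiv ℝ a x) :=
    fun x => (Complex.ofRealCLM.hasFDerivAt.comp x (h1 x).hasFDerivAt).fderiv
  simp only [h3] at h2
  exact h2

theorem RA.bound {a : E d → ℝ} (h : a ∈ RA d) : ∃ M, ∀ x, ‖a x‖ ≤ M := by
  simpa using Alg.bound h

end Pool.Agent.P.MP_1ad12f_an
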