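import Pool.Agent.P.MP_1ad12f_an.Defs

set_option autoImplicit false

open MeasureTheory FourierTransform Complex Filter Topology
open scoped ContDiff Real InnerProductSpace SchwartzMap

namespace Pool.Agent.P.MP_1ad12f_an

variable {d : ℕ}

noncomputable def ch (a b : E d) : ℂ := Complex.exp (((2 * π * ⟪a, b⟫_ℝ : ℝ) : ℂ) * I)

theorem ch_comm (a b : E d) : ch a b = ch b a := by
  simp only [ch, real_inner_comm]

theorem ch_add (a b c : E d) : ch a (b + c) = ch a b * ch a c := by
  simp only [ch, inner_add_right, ← Complex.exp_add]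
  congr 1
  push_cast
  ring

theorem ch_add_left (a b c : E d) : ch (a + b) c = ch a c * ch b c := by
  rw [ch_comm, ch_add, ch_comm c, ch_comm c]

theorem ch_smul (s : ℝ) (a b : E d) : ch (s • a) b = ch a (s • b) := by
  simp only [ch, inner_smul_left, inner_smul_right]
  simp

theorem ch_neg (a b : E d) : ch (-a) b = ch a (-b) := by
  simp only [ch, inner_neg_left, inner_neg_right]

theorem norm_ch (a b : E d) : ‖ch a b‖ = 1 := by
  simp only [ch, Complex.norm_exp_ofReal_mul_I]

theorem ch_zero (a : E d) : ch a 0 = 1 := by simp [ch]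

theorem contDiff_ch (b : E d) : ContDiff ℝ ∞ fun a : E d => ch a b := by
  unfold ch
  apply ContDiff.cexp
  apply ContDiff.mul _ contDiff_const
  apply Complex.ofRealCLM.contDiff.comp
  exact contDiff_const.mul (contDiff_id.inner ℝ contDiff_const)

theorem continuous_ch : Continuous fun p : E d × E d => ch p.1 p.2 := by
  unfold ch
  fun_prop

theorem fourier_ch (f : E d → ℂ) (w : E d) : 𝓕 f w = ∫ v, ch v (-w) * f v := by
  rw [Real.fourier_eq']
  congr 1
  ext v
  simp only [ch, inner_neg_right, smul_eq_mul]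
  congr 3
  ring_nf

theorem fourierInv_ch (f : E d → ℂ) (w : E d) : 𝓕⁻ f w = ∫ v, ch v w * f v := by
  rw [Real.fourierInv_eq']
  rfl

theorem integrable_test {φ : E d → ℂ} (h1 : ContDiff ℝ ∞ φ) (h2 : HasCompactSupport φ) :
    Integrable φ := h1.continuous.integrable_of_hasCompactSupport h2

theorem integrable_fourier_test {φ : E d → ℂ} (h1 : ContDiff ℝ ∞ φ) (h2 : HasCompactSupport φ) :
    Integrable (𝓕 φ) := (𝓕 (h2.toSchwartzMap h1)).integrable

theorem integrable_ch_mul {f : E d → ℂ} (hf : Integrable f) (w : E d) :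
    Integrable fun v => ch v w * f v :=
  hf.bdd_mul (c := 1) (contDiff_ch w).continuous.aestronglyMeasurable
    (Eventually.of_forall fun v => (norm_ch v w).le)

theorem fourier_sub' {f g : E d → ℂ} (hf : Integrable f) (hg : Integrable g) (w : E d) :
    𝓕 (fun v => f v - g v) w = 𝓕 f w - 𝓕 g w := by
  simp only [fourier_ch, mul_sub]
  exact integral_sub (integrable_ch_mul hf _) (integrable_ch_mul hg _)

theorem integrable_mul_bdd {k F : E d → ℂ} (hk : Integrable k) (hF : Continuous F) {M : ℝ}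
    (hM : ∀ x, ‖F x‖ ≤ M) : Integrable fun x => k x * F x :=
  hk.mul_bdd (c := M) hF.aestronglyMeasurable (Eventually.of_forall hM)

theorem scale_formula (b F : E d → ℂ) (x : E d) {s : ℝ} (hs : 0 < s) :
    ∫ y, 𝓕 (fun v => b (s⁻¹ • v) * ch v x) y * F y = ∫ u, 𝓕 b u * F (x + s⁻¹ • u) := by
  have h1 : ∀ y, 𝓕 (fun v => b (s⁻¹ • v) * ch v x) y
      = (s ^ Module.finrank ℝ (E d)) • 𝓕 b (s • (y - x)) := by
    intro y
    rw [fourier_ch, fourier_ch, ← Measure.integral_comp_inv_smul_of_nonneg volume _ hs.le]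
    congr 1
    ext v
    rw [ch_smul, smul_neg, smul_smul, inv_mul_cancel₀ hs.ne', one_smul, neg_sub,
      sub_eq_neg_add, ch_add]
    ring
  simp only [h1]
  rw [← integral_add_left_eq_self _ x]
  have h2 := Measure.integral_comp_smul_of_nonneg volume
    (fun u => 𝓕 b u * F (x + s⁻¹ • u)) s (hR := hs.le)
  simp only [smul_smul, inv_mul_cancel₀ hs.ne', one_smul] at h2
  simp only [add_sub_cancel_left, smul_mul_assoc]
  rw [integral_smul, h2, smul_smul, mul_inv_cancel₀ (pow_pos hs _).ne', one_smul]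

theorem repro {F : E d → ℂ} (hF : Continuous F) {M : ℝ} (hM : ∀ x, ‖F x‖ ≤ M)
    (hc : CompactSpectrum F) : ∃ k : 𝓢(E d, ℂ), ∀ x, F x = ∫ y, k (y - x) * F y := by
  obtain ⟨R, hR⟩ := hc
  let β : ContDiffBump (0 : E d) := ⟨|R| + 1, |R| + 2, by positivity, by linarith⟩
  let b : E d → ℂ := fun v => (β v : ℂ)
  have hb1 : ContDiff ℝ ∞ b := Complex.ofRealCLM.contDiff.comp β.contDiff
  have hb2 : HasCompactSupport b := β.hasCompactSupport.comp_left (g := fun r : ℝ => (r : ℂ)) (by simp)
  have hb3 : ∀ v : E d, ‖v‖ ≤ |R| → b v = 1 := by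
    intro v hv
    have : β v = 1 := β.one_of_mem_closedBall (by
      rw [mem_closedBall_zero_iff]
      exact hv.trans (le_add_of_nonneg_right zero_le_one))
    simp [b, this]
  have hk : Integrable (𝓕 b) := integrable_fourier_test hb1 hb2
  refine ⟨𝓕 (hb2.toSchwartzMap hb1), fun x => ?_⟩
  change F x = ∫ y, 𝓕 b (y - x) * F y
  rw [← integral_add_left_eq_self _ x]
  simp only [add_sub_cancel_left]
  have hs1 : ∀ s : ℝ, ContDiff ℝ ∞ fun v => b (s⁻¹ • v) * ch v x := fun s =>
    (hb1.comp (contDiff_const_smul _)).mul (contDiff_ch x)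
  have hs2 : ∀ s : ℝ, 0 < s → HasCompactSupport fun v => b (s⁻¹ • v) * ch v x := fun s hs =>
    (hb2.comp_smul (inv_ne_zero hs.ne')).mul_right
  have key : ∀ s : ℝ, 1 ≤ s →
      ∫ u, 𝓕 b u * F (x + s⁻¹ • u) = ∫ u, 𝓕 b u * F (x + u) := by
    intro s hs
    have hs0 : 0 < s := by linarith
    have e1 := scale_formula b F x one_pos
    have e1' : ∫ u, 𝓕 b u * F (x + (1 : ℝ)⁻¹ • u) = ∫ u, 𝓕 b u * F (x + u) := by simp
    rw [← scale_formula b F x hs0, ← e1', ← e1, ← sub_eq_zero,
      ← integral_sub (integrable_mul_bdd (integrable_fourier_test (hs1 s) (hs2 s hs0)) hF hM)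
        (integrable_mul_bdd (integrable_fourier_test (hs1 1) (hs2 1 one_pos)) hF hM)]
    have := hR (fun v => b (s⁻¹ • v) * ch v x - b ((1 : ℝ)⁻¹ • v) * ch v x)
      ((hs1 s).sub (hs1 1)) ((hs2 s hs0).sub (hs2 1 one_pos)) (by
        intro v hv
        have hv' : ‖v‖ ≤ |R| := hv.trans (le_abs_self R)
        have h3 : ‖s⁻¹ • v‖ ≤ |R| := by
          rw [norm_smul, Real.norm_eq_abs, abs_of_pos (inv_pos.2 hs0)]
          exact (mul_le_of_le_one_left (norm_nonneg _) (inv_le_one_of_one_le₀ hs)).trans hv'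
        rw [hb3 _ h3, inv_one, one_smul, hb3 _ hv', sub_self])
    rw [← this]
    congr 1
    ext y
    rw [fourier_sub' (integrable_test (hs1 s) (hs2 s hs0)) (integrable_test (hs1 1) (hs2 1 one_pos))]
    ring
  have hint : ∫ u, 𝓕 b u = 1 := by
    have := hb1.continuous.fourierInv_fourier_eq (integrable_test hb1 hb2) hk
    have h0 := congrFun this 0
    rw [fourierInv_ch] at h0
    simp only [ch_zero, one_mul] at h0
    rw [h0, hb3 0 (by simp)]
  have lim : Tendsto (fun s : ℝ => ∫ u, 𝓕 b u * F (x + s⁻¹ • u)) atTop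
      (𝓝 (∫ u, 𝓕 b u * F x)) := by
    apply tendsto_integral_filter_of_dominated_convergence (fun u => ‖𝓕 b u‖ * M)
    · exact Eventually.of_forall fun s => (hk.aestronglyMeasurable.mul
        (hF.comp (by fun_prop)).aestronglyMeasurable)
    · refine Eventually.of_forall fun s => Eventually.of_forall fun u => ?_
      rw [norm_mul]
      exact mul_le_mul_of_nonneg_left (hM _) (norm_nonneg _)
    · exact hk.norm.mul_const M
    · refine Eventually.of_forall fun u => ?_
      apply Tendsto.const_mul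
      apply hF.continuousAt.tendsto.comp
      have : Tendsto (fun s : ℝ => x + s⁻¹ • u) atTop (𝓝 (x + (0 : ℝ) • u)) :=
        tendsto_const_nhds.add (tendsto_inv_atTop_zero.smul_const u)
      simpa using this
  rw [integral_mul_const, hint, one_mul] at lim
  exact tendsto_nhds_unique lim
    (tendsto_const_nhds.congr' ((eventually_ge_atTop 1).mono fun s hs => (key s hs).symm))

end Pool.Agent.P.MP_1ad12f_an
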