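import Pool.Agent.P.MP_1ad12f_an.Basic

set_option autoImplicit false

open MeasureTheory FourierTransform Complex Filter Topology Metric
open scoped ContDiff Real InnerProductSpace SchwartzMap

namespace Pool.Agent.P.MP_1ad12f_an

variable {d : ℕ}

theorem fourier_flip {φ g : E d → ℂ} (hφ : Integrable φ) (hg : Integrable g) :
    ∫ x, 𝓕 φ x * g x = ∫ x, φ x * 𝓕 g x := by
  simpa using! VectorFourier.integral_bilin_fourierIntegral_eq_flip (ContinuousLinearMap.mul ℂ ℂ)
    (L := innerₗ (E d)) Real.continuous_fourierChar continuous_inner hφ hg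

theorem fourier_continuous {g : E d → ℂ} (hg : Integrable g) : Continuous (𝓕 g) :=
  VectorFourier.fourierIntegral_continuous Real.continuous_fourierChar
    (innerSL ℝ).continuous₂ hg

theorem fourier_bound (g : E d → ℂ) (x : E d) : ‖𝓕 g x‖ ≤ ∫ v, ‖g v‖ :=
  VectorFourier.norm_fourierIntegral_le_integral_norm _ _ _ _ _

theorem fourierInv_flip {φ g : E d → ℂ} (hφ : Integrable φ) (hg : Integrable g) :
    ∫ x, 𝓕⁻ φ x * g x = ∫ x, φ x * 𝓕⁻ g x := by
  rw [Real.fourierInv_eq_fourier_comp_neg φ, fourier_flip hφ.comp_neg hg,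
    ← integral_neg_eq_self]
  simp only [neg_neg, Real.fourierInv_eq_fourier_neg]

theorem fourierInv_continuous {g : E d → ℂ} (hg : Integrable g) : Continuous (𝓕⁻ g) := by
  rw [Real.fourierInv_eq_fourier_comp_neg]
  exact fourier_continuous hg.comp_neg

theorem bridge (G : Lp ℂ 2 (volume : Measure (E d))) {g : E d → ℂ} (hg : Integrable g)
    (h : G =ᵐ[volume] g) : (𝓕⁻ G : Lp ℂ 2 (volume : Measure (E d))) =ᵐ[volume] 𝓕⁻ g := by
  refine ae_eq_of_integral_contDiff_smul_eq ((Lp.memLp _).locallyIntegrable one_le_two)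
    (fourierInv_continuous hg).locallyIntegrable fun φ h1 h2 => ?_
  have h3 : ContDiff ℝ ∞ fun x => (φ x : ℂ) := Complex.ofRealCLM.contDiff.comp h1
  have h4 : HasCompactSupport fun x => (φ x : ℂ) :=
    h2.comp_left (g := fun r : ℝ => (r : ℂ)) (by simp)
  have h5 := congrArg (fun T : 𝓢'(E d, ℂ) => T (h4.toSchwartzMap h3))
    (Lp.fourierInv_toTemperedDistribution_eq G)
  simp only [TemperedDistribution.fourierInv_apply, Lp.toTemperedDistribution_apply,
    SchwartzMap.fourierInv_coe, smul_eq_mul] at h5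
  simp only [Complex.real_smul]
  refine h5.symm.trans (Eq.trans ?_ (fourierInv_flip (integrable_test h3 h4) hg))
  refine integral_congr_ae ?_
  filter_upwards [h] with x hx
  rw [hx]
  rfl

theorem integrable_of_memLp {g : E d → ℂ} (hg : MemLp g 2 volume) {R : ℝ}
    (h : ∀ v, R < ‖v‖ → g v = 0) : Integrable g := by
  have h1 : IntegrableOn g (closedBall 0 R) :=
    (hg.locallyIntegrable one_le_two).integrableOn_isCompact (isCompact_closedBall _ _)
  refine (integrableOn_iff_integrable_of_support_subset fun v hv => ?_).1 h1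
  by_contra h2
  exact hv (h v (by simpa using h2))

theorem bandlimited_of {g : E d → ℂ} (hg : MemLp g 2 volume) {R : ℝ}
    (h : ∀ v, R < ‖v‖ → g v = 0) : Bandlimited (𝓕⁻ g) := by
  have hi := integrable_of_memLp hg h
  have hb := bridge (hg.toLp g) hi hg.coeFn_toLp
  have hm : MemLp (𝓕⁻ g) 2 volume := (memLp_congr_ae hb).1 (Lp.memLp _)
  refine ⟨fourierInv_continuous hi, hm, R, ?_⟩
  have h1 : hm.toLp (𝓕⁻ g) = 𝓕⁻ (hg.toLp g) := Lp.ext (hm.coeFn_toLp.trans hb.symm)
  simp only [hat, fourierL2]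
  rw [h1, fourier_fourierInv_eq]
  filter_upwards [hg.coeFn_toLp] with v hv hR
  rw [hv, h v hR]

/-- `F` is the Fourier integral of an integrable function that vanishes outside a ball. -/
def Wien (F : E d → ℂ) : Prop :=
  ∃ g : E d → ℂ, Integrable g ∧ (∃ R : ℝ, ∀ v, R < ‖v‖ → g v = 0) ∧ F = 𝓕 g

theorem Bandlimited.wien {f : E d → ℂ} (hf : Bandlimited f) : Wien f := by
  obtain ⟨hc, hm, R, hR⟩ := hf
  simp only [hat, fourierL2] at hR
  set G : Lp ℂ 2 (volume : Measure (E d)) := 𝓕 (hm.toLp f) with hG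
  set g : E d → ℂ := (closedBall 0 R).indicator G with hg
  have h1 : ∀ v, R < ‖v‖ → g v = 0 := fun v hv => Set.indicator_of_notMem (by simpa using hv) _
  have h2 : G =ᵐ[volume] g := by
    filter_upwards [hR] with v hv
    by_cases h : R < ‖v‖
    · rw [h1 v h, hv h]
    · exact (Set.indicator_of_mem (by simpa using h) _).symm
  have hi := integrable_of_memLp ((memLp_congr_ae h2).1 (Lp.memLp G)) h1
  have hb := bridge G hi h2
  rw [hG, fourierInv_fourier_eq] at hb
  refine ⟨fun v => g (-v), hi.comp_neg, ⟨R, fun v hv => h1 _ (by simpa using hv)⟩, ?_⟩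
  rw [← Real.fourierInv_eq_fourier_comp_neg]
  exact (hc.ae_eq_iff_eq volume (fourierInv_continuous hi)).1 (hm.coeFn_toLp.symm.trans hb)

theorem Wien.bound {F : E d → ℂ} (h : Wien F) : ∃ M, ∀ x, ‖F x‖ ≤ M := by
  obtain ⟨g, -, -, rfl⟩ := h
  exact ⟨_, fourier_bound g⟩

end Pool.Agent.P.MP_1ad12f_an
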