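import Pool.Agent.P.MP_1ad12f_an.Pw

set_option autoImplicit false

open Complex Filter Topology Metric Set
open scoped Real

namespace Pool.Agent.P.MP_1ad12f_an

theorem log_exists {s : Set ℂ} (ho : IsOpen s) (hs : IsPreconnected s) (h0 : (0 : ℂ) ∈ s)
    (hx : ∀ f : ℂ → ℂ, DifferentiableOn ℂ f s → IsExactOn f s) {U : ℂ → ℂ}
    (hU : DifferentiableOn ℂ U s) (hne : ∀ z ∈ s, U z ≠ 0) {c : ℂ} (hc : exp c = U 0) :
    ∃ H : ℂ → ℂ, DifferentiableOn ℂ H s ∧ H 0 = c ∧ ∀ z ∈ s, exp (H z) = U z := by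
  obtain ⟨H, h1, h2⟩ := (hx (fun z => deriv U z / U z) ((hU.deriv ho).div hU hne)).with_val_at 0 c
  have hH : DifferentiableOn ℂ H s := fun z hz => (h2 z hz).differentiableAt.differentiableWithinAt
  refine ⟨H, hH, h1, fun z hz => ?_⟩
  have h3 := ho.is_const_of_deriv_eq_zero (f := fun z => exp (H z) / U z) hs
    (hH.cexp.div hU hne) (fun w hw => by
      have a1 := (hU.differentiableAt (ho.mem_nhds hw)).hasDerivAt
      have a2 := ((h2 w hw).cexp.fun_div a1 (hne w hw)).deriv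
      have a3 := hne w hw
      rw [a2, Pi.zero_apply]
      field_simp
      ring) hz h0
  simp only [h1, hc, div_self (hne 0 h0)] at h3
  rwa [div_eq_one_iff_eq (hne z hz)] at h3

theorem ofReal_tendsto (t : ℝ) : Tendsto (fun x : ℝ => (x : ℂ)) (𝓝[≠] t) (𝓝[≠] (t : ℂ)) := by
  refine tendsto_nhdsWithin_iff.2
    ⟨(Complex.continuous_ofReal.tendsto t).mono_left nhdsWithin_le_nhds, ?_⟩
  filter_upwards [self_mem_nhdsWithin] with x hx
  simpa using hx

theorem eqOn_of_real {s : Set ℂ} (ho : IsOpen s) (hs : IsPreconnected s) (h0 : (0 : ℂ) ∈ s)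
    {f g : ℂ → ℂ} (hf : DifferentiableOn ℂ f s) (hg : DifferentiableOn ℂ g s)
    (h : ∀ t : ℝ, (t : ℂ) ∈ s → f t = g t) : EqOn f g s := by
  refine (hf.analyticOnNhd ho).eqOn_of_preconnected_of_frequently_eq (hg.analyticOnNhd ho) hs h0 ?_
  have h1 := ofReal_tendsto 0
  rw [Complex.ofReal_zero] at h1
  refine h1.frequently (Eventually.frequently ?_)
  filter_upwards [h1.eventually (mem_nhdsWithin_of_mem_nhds (ho.mem_nhds h0))] with t ht
  exact h t ht

/-- The quotient `P / Q` in normal form. -/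
noncomputable def nf (P Q : ℂ → ℂ) : ℂ → ℂ := toMeromorphicNFOn (P / Q) univ

theorem nf_at (P Q : ℂ → ℂ) (z : ℂ) : MeromorphicNFAt (nf P Q) z :=
  meromorphicNFOn_toMeromorphicNFOn _ _ (mem_univ z)

theorem nf_eq {P Q : ℂ → ℂ} (hP : Differentiable ℂ P) (hQ : Differentiable ℂ Q) (z : ℂ) :
    nf P Q =ᶠ[𝓝[≠] z] P / Q :=
  MeromorphicOn.toMeromorphicNFOn_eq_self_on_nhdsNE
    (fun w _ => (hP.analyticAt w).meromorphicAt.div (hQ.analyticAt w).meromorphicAt) (mem_univ z)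

theorem nf_analytic {P Q : ℂ → ℂ} {z : ℂ} (h : nf P Q z ≠ 0) : AnalyticAt ℂ (nf P Q) z :=
  (nf_at P Q z).meromorphicOrderAt_nonneg_iff_analyticAt.1
    ((nf_at P Q z).meromorphicOrderAt_eq_zero_iff.2 h).ge

theorem nf_order {P Q : ℂ → ℂ} (h : nf P Q 0 ≠ 0) (z : ℂ) : meromorphicOrderAt (nf P Q) z ≠ ⊤ := by
  have hm : MeromorphicOn (nf P Q) univ := fun w _ => (nf_at P Q w).meromorphicAt
  refine hm.meromorphicOrderAt_ne_top_of_isPreconnected isPreconnected_univ (mem_univ 0)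
    (mem_univ z) ?_
  rw [(nf_at P Q 0).meromorphicOrderAt_eq_zero_iff.2 h]
  simp

theorem nf_zero {P Q : ℂ → ℂ} (hP : Differentiable ℂ P) (hQ : Differentiable ℂ Q) (h1 : P 0 ≠ 0)
    (h2 : Q 0 ≠ 0) : nf P Q 0 ≠ 0 := by
  rw [← (nf_at P Q 0).meromorphicOrderAt_eq_zero_iff, meromorphicOrderAt_congr (nf_eq hP hQ 0),
    ((hP.analyticAt 0).div (hQ.analyticAt 0) h2).meromorphicNFAt.meromorphicOrderAt_eq_zero_iff]
  exact div_ne_zero h1 h2

theorem nf_real {P Q : ℂ → ℂ} (hP : Differentiable ℂ P) (hQ : Differentiable ℂ Q) (h2 : Q 0 ≠ 0)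
    {g : ℝ → ℝ} (hg : Continuous g) (e : ∀ t : ℝ, P t = exp (g t * I) * Q t) {t : ℝ}
    (ht : nf P Q t ≠ 0) : nf P Q t = exp (g t * I) := by
  have h1 := ofReal_tendsto t
  have h3 : Tendsto (fun x : ℝ => nf P Q x) (𝓝[≠] t) (𝓝 (nf P Q t)) :=
    (nf_analytic ht).continuousAt.tendsto.comp (h1.mono_right nhdsWithin_le_nhds)
  have h4 : Tendsto (fun x : ℝ => exp (g x * I)) (𝓝[≠] t) (𝓝 (exp (g t * I))) :=
    (Continuous.tendsto (by fun_prop) t).mono_left nhdsWithin_le_nhds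
  refine tendsto_nhds_unique (h3.congr' ?_) h4
  filter_upwards [h1.eventually (nf_eq hP hQ t), h1.eventually (entire_ne_zero hQ h2 t)]
    with x hx hx'
  rw [hx, Pi.div_apply, e x, mul_div_assoc, div_self hx', mul_one]

theorem nf_log {s : Set ℂ} (ho : IsOpen s) (hs : Convex ℝ s) (h0 : (0 : ℂ) ∈ s)
    (hx : ∀ f : ℂ → ℂ, DifferentiableOn ℂ f s → IsExactOn f s)
    {P Q : ℂ → ℂ} (hP : Differentiable ℂ P) (hQ : Differentiable ℂ Q) (h2 : Q 0 ≠ 0)
    {g : ℝ → ℝ} (hg : Continuous g) (e : ∀ t : ℝ, P t = exp (g t * I) * Q t)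
    (hne : ∀ z ∈ s, nf P Q z ≠ 0) :
    ∃ H : ℂ → ℂ, DifferentiableOn ℂ H s ∧ (∀ z ∈ s, exp (H z) = nf P Q z) ∧
      ∀ t : ℝ, (t : ℂ) ∈ s → H t = g t * I := by
  obtain ⟨H, h3, h4, h5⟩ := log_exists ho hs.isPreconnected h0 hx (U := nf P Q)
    (fun z hz => (nf_analytic (hne z hz)).differentiableAt.differentiableWithinAt) hne
    (c := g 0 * I) (by simpa using (nf_real hP hQ h2 hg e (t := 0) (by simpa using hne 0 h0)).symm)
  refine ⟨H, h3, h5, fun t ht => ?_⟩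
  have hc : Convex ℝ {t : ℝ | (t : ℂ) ∈ s} := hs.linear_preimage Complex.ofRealCLM.toLinearMap
  refine lift_unique hc.isPreconnected (g₁ := fun t : ℝ => H t) (g₂ := fun t => g t * I)
    (h3.continuousOn.comp Complex.continuous_ofReal.continuousOn fun _ h => h)
    (Continuous.continuousOn (by fun_prop))
    (fun x hx => (h5 x hx).trans (nf_real hP hQ h2 hg e (hne x hx))) (a := 0) (by simpa using h0)
    (by simpa using h4) ht

theorem nf_ne_zero {ι : Type} [Fintype ι] {g : ι → ℝ → ℝ} (hg : ∀ j, Continuous (g j))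
    {Φ : ℂ → ℂ} {P Q : ι → ℂ → ℂ} (hΦ : Differentiable ℂ Φ) (hP : ∀ j, Differentiable ℂ (P j))
    (hQ : ∀ j, Differentiable ℂ (Q j)) (hQ0 : ∀ j, Q j 0 ≠ 0) (hΦ0 : Φ 0 ≠ 0)
    (e1 : ∀ j (t : ℝ), P j t = exp (g j t * I) * Q j t)
    (e2 : ∀ t : ℝ, Φ t * ∏ j, (g j t : ℂ) = ∏ j, sin (g j t : ℂ))
    (e3 : ∀ j, sin (g j 0 : ℂ) ≠ 0) (j : ι) (z : ℂ) : nf (P j) (Q j) z ≠ 0 := by
  classical
  have hU0 : ∀ j, nf (P j) (Q j) 0 ≠ 0 := fun j => nf_zero (hP j) (hQ j) (by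
    have := e1 j 0
    rw [Complex.ofReal_zero] at this
    rw [this]
    exact mul_ne_zero (Complex.exp_ne_zero _) (hQ0 j)) (hQ0 j)
  set Z : Set ℂ := {z | ∃ j, nf (P j) (Q j) z = 0} with hZ
  by_contra hz
  have hne : Z.Nonempty := ⟨z, j, by simpa using hz⟩
  have hcl : IsClosed Z := by
    rw [← isOpen_compl_iff, isOpen_iff_mem_nhds]
    intro w hw
    have h1 : ∀ j, ∀ᶠ v in 𝓝 w, nf (P j) (Q j) v ≠ 0 := fun j =>
      (nf_analytic fun h => hw ⟨j, h⟩).continuousAt.eventually_ne fun h => hw ⟨j, h⟩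
    filter_upwards [eventually_all.2 h1] with v hv
    rintro ⟨j, h⟩
    exact hv j h
  obtain ⟨z₀, ⟨j₀, hj₀⟩, hd⟩ := hcl.exists_infDist_eq_dist hne 0
  have hz0 : z₀ ≠ 0 := fun h => hU0 j₀ (h ▸ hj₀)
  have hball : ∀ j, ∀ w ∈ ball (0 : ℂ) ‖z₀‖, nf (P j) (Q j) w ≠ 0 := by
    intro j w hw h
    have h1 := infDist_le_dist_of_mem (x := (0 : ℂ)) (show w ∈ Z from ⟨j, h⟩)
    rw [hd, dist_zero_left, dist_zero_left] at h1
    exact absurd (mem_ball_zero_iff.1 hw) (not_lt.2 h1)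
  have h0 : (0 : ℂ) ∈ ball (0 : ℂ) ‖z₀‖ := mem_ball_self (norm_pos_iff.2 hz0)
  choose H h1 h2 h3 using fun j => nf_log isOpen_ball (convex_ball _ _) h0
    (fun f hf => hf.isExactOn_ball) (hP j) (hQ j) (hQ0 j) (hg j) (e1 j) (hball j)
  have hid : EqOn (fun w => Φ w * ∏ j, H j w) (fun w => ∏ j, sinh (H j w)) (ball 0 ‖z₀‖) := by
    refine eqOn_of_real isOpen_ball (convex_ball _ _).isPreconnected h0
      (hΦ.differentiableOn.mul (DifferentiableOn.fun_finsetProd fun j _ => h1 j))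
      (DifferentiableOn.fun_finsetProd fun j _ => (h1 j).csinh) fun t ht => ?_
    simp only [fun j => h3 j t ht, Complex.sinh_mul_I, Finset.prod_mul_distrib]
    rw [← e2 t, mul_assoc]
  have hS : ∀ j, Pw (fun t => ‖sinh (H j (ray z₀ t))‖) 0 := by
    intro j
    set S : ℂ → ℂ := fun w => (nf (P j) (Q j) w - (nf (P j) (Q j) w)⁻¹) / 2 with hS
    have hm : MeromorphicOn S univ := fun w _ =>
      ((nf_at _ _ w).meromorphicAt.fun_sub (nf_at _ _ w).meromorphicAt.fun_inv).fun_div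
        (MeromorphicAt.const 2 w)
    have hSe : ∀ w ∈ ball (0 : ℂ) ‖z₀‖, S w = sinh (H j w) := by
      intro w hw
      simp only [hS, ← h2 j w hw, Complex.sinh, Complex.exp_neg]
    have ha : AnalyticAt ℂ S 0 :=
      ((nf_analytic (hU0 j)).fun_sub ((nf_analytic (hU0 j)).fun_inv (hU0 j))).fun_div
        analyticAt_const two_ne_zero
    have hS0 : S 0 ≠ 0 := by
      have := h3 j 0 (by simpa using h0)
      rw [Complex.ofReal_zero] at this
      rw [hSe 0 h0, this, Complex.sinh_mul_I]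
      exact mul_ne_zero (e3 j) I_ne_zero
    have ho : meromorphicOrderAt S z₀ ≠ ⊤ := by
      refine hm.meromorphicOrderAt_ne_top_of_isPreconnected isPreconnected_univ (mem_univ 0)
        (mem_univ z₀) ?_
      rw [ha.meromorphicNFAt.meromorphicOrderAt_eq_zero_iff.2 hS0]
      simp
    refine (Pw.of_meromorphic hz0 (hm z₀ (mem_univ _)) ho).congr ?_
    filter_upwards [ray_mem hz0] with t ht
    rw [hSe _ ht]
  choose n hn using fun j => WithTop.ne_top_iff_exists.1 (nf_order (hU0 j) z₀)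
  have hH : ∀ j, Pw (fun t => ‖H j (ray z₀ t)‖) (if n j = 0 then 0 else 1) := by
    intro j
    obtain ⟨w, hw, h4⟩ := ray_form hz0 (nf_at (P j) (Q j) z₀).meromorphicAt (hn j).symm
    refine Pw.of_log hw ?_ (h4.congr' ?_) (hS j)
    · filter_upwards [ray_mem hz0] with t ht
      exact ((h1 j).continuousOn.continuousAt (isOpen_ball.mem_nhds ht)).comp
        (continuous_ray z₀).continuousAt
    · filter_upwards [ray_mem hz0] with t ht
      rw [h2 j _ ht]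
  have hA := (Pw.of_meromorphic hz0 (hΦ.analyticAt z₀).meromorphicAt
    (entire_order_ne_top hΦ hΦ0 z₀)).mul (Pw.prod Finset.univ hH)
  have hB := Pw.prod Finset.univ hS
  rw [Finset.sum_const_zero] at hB
  have hC := hB.unique (hA.congr (by
    filter_upwards [ray_mem hz0] with t ht
    have := congrArg norm (hid ht)
    simpa only [norm_mul, norm_prod] using this))
  rw [zero_add, Finset.sum_eq_zero_iff] at hC
  have hD := hC j₀ (Finset.mem_univ _)
  have hE : n j₀ = 0 := by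
    by_contra h
    simp [h] at hD
  have hF := hn j₀
  rw [hE] at hF
  exact (nf_at _ _ z₀).meromorphicOrderAt_eq_zero_iff.1 hF.symm hj₀

theorem affine_of_phases {ι : Type} [Fintype ι] {g : ι → ℝ → ℝ} (hg : ∀ j, Continuous (g j))
    {Φ : ℂ → ℂ} {Ψ : ι → ℂ → ℂ} (hΦ : ExpType Φ) (hΨ : ∀ j, ExpType (Ψ j))
    (e1 : ∀ j (t : ℝ), Φ t + I * Ψ j t = exp (g j t * I) * (Φ t + (-I) * Ψ j t))
    (e2 : ∀ t : ℝ, Φ t * ∏ j, (g j t : ℂ) = ∏ j, sin (g j t : ℂ))
    (e3 : ∀ j, sin (g j 0 : ℂ) ≠ 0) (j : ι) : ∃ l : ℝ, ∀ t, g j t = g j 0 + l * t := by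
  have hP := fun j => hΦ.add_mul (hΨ j) I (by simp)
  have hQ := fun j => hΦ.add_mul (hΨ j) (-I) (by simp)
  have hΦ0 : Φ 0 ≠ 0 := by
    intro h
    have := e2 0
    rw [Complex.ofReal_zero, h, zero_mul] at this
    exact Finset.prod_ne_zero_iff.2 (fun j _ => e3 j) this.symm
  have hQ0 : ∀ j, Φ 0 + (-I) * Ψ j 0 ≠ 0 := by
    intro j h
    have := e1 j 0
    rw [Complex.ofReal_zero, h, mul_zero] at this
    apply hΦ0
    linear_combination (this + h) / 2
  have hne := nf_ne_zero hg hΦ.1 (fun j => (hP j).1) (fun j => (hQ j).1) hQ0 hΦ0 e1 e2 e3 j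
  obtain ⟨H, h1, -, h3⟩ := nf_log isOpen_univ convex_univ (mem_univ _)
    (fun f hf => (differentiableOn_univ.1 hf).isExactOn_univ) (hP j).1 (hQ j).1 (hQ0 j) (hg j)
    (e1 j) fun z _ => hne z
  have hH := differentiableOn_univ.1 h1
  obtain ⟨l, hl⟩ := affine_of_quot (hP j) (hQ j) hH (fun z => eqOn_of_real isOpen_univ
    isPreconnected_univ (mem_univ _) (hP j).1.differentiableOn
    (hH.cexp.mul (hQ j).1).differentiableOn (fun t ht => by
      simp only [Pi.mul_apply, h3 t ht]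
      exact e1 j t) (mem_univ z)) (hQ0 j)
  refine ⟨l.im, fun t => ?_⟩
  have h4 := h3 0 (mem_univ _)
  rw [Complex.ofReal_zero] at h4
  have h5 := congrArg im (hl t)
  rw [h3 t (mem_univ _), h4] at h5
  simpa using h5

end Pool.Agent.P.MP_1ad12f_an
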