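import Mathlib

set_option autoImplicit false

open MeasureTheory FourierTransform
open scoped ContDiff

namespace Pool.Agent.P.MP_1ad12f_an

/-- Euclidean space of dimension `d`. -/
abbrev E (d : ℕ) : Type := EuclideanSpace ℝ (Fin d)

/-- Mathlib's Fourier transform on `L²(V)` (Plancherel). -/
noncomputable def fourierL2 {V : Type} [NormedAddCommGroup V] [InnerProductSpace ℝ V]
    [FiniteDimensional ℝ V] [MeasurableSpace V] [BorelSpace V]
    (F : Lp ℂ 2 (volume : Measure V)) : Lp ℂ 2 (volume : Measure V) := 𝓕 F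

/-- The `L²` Fourier transform of a square integrable function, as a function. -/
noncomputable def hat {V : Type} [NormedAddCommGroup V] [InnerProductSpace ℝ V]
    [FiniteDimensional ℝ V] [MeasurableSpace V] [BorelSpace V]
    (f : V → ℂ) (h : MemLp f 2 volume) : V → ℂ := fourierL2 (h.toLp f)

/-- `f` is continuous, square integrable, and its `L²` Fourier transform vanishes almost
everywhere outside a ball. -/
def Bandlimited {d : ℕ} (f : E d → ℂ) : Prop :=
  Continuous f ∧ ∃ h : MemLp f 2 volume, ∃ R : ℝ, ∀ᵐ ξ : E d, R < ‖ξ‖ → hat f h ξ = 0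

/-- The distributional Fourier transform `φ ↦ ∫ (𝓕 φ) F` of `F` has compact support: it is zero
on every smooth compactly supported `φ` that vanishes on some fixed ball. -/
def CompactSpectrum {d : ℕ} (F : E d → ℂ) : Prop :=
  ∃ R : ℝ, ∀ φ : E d → ℂ, ContDiff ℝ ∞ φ → HasCompactSupport φ →
    (∀ ξ, ‖ξ‖ ≤ R → φ ξ = 0) → ∫ x, 𝓕 φ x * F x = 0

/-- `γ x = A x + b` with `A` invertible. -/
def IsAffine {d : ℕ} (γ : E d → E d) : Prop :=
  ∃ (A : E d ≃ₗ[ℝ] E d) (b : E d), ∀ x, γ x = A x + b

/-- The real bandlimited functions `f i` detect affine maps: every continuous bijection `γ` such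
that all `f i ∘ γ` have compactly supported Fourier transform is affine. -/
def TestFamily {d k : ℕ} (f : Fin k → E d → ℝ) : Prop :=
  (∀ i, Bandlimited fun x => (f i x : ℂ)) ∧
    ∀ γ : E d → E d, Continuous γ → Function.Bijective γ →
      (∀ i, CompactSpectrum fun x => (f i (γ x) : ℂ)) → IsAffine γ

end Pool.Agent.P.MP_1ad12f_an
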