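import Pool.Agent.P.MP_1ad12f_an.Defs

set_option autoImplicit false

open Filter Topology Metric Set Function
open scoped NNReal

namespace Pool.Agent.P.MP_1ad12f_an

variable {V : Type} [NormedAddCommGroup V] [NormedSpace ℝ V]

theorem time_one [CompleteSpace V] {Z : ℝ → V → V} {K L : ℝ≥0}
    (h1 : ∀ t ∈ Icc (0 : ℝ) 1, LipschitzWith K (Z t)) (h2 : ∀ x, ContinuousOn (Z · x) (Icc 0 1))
    (h3 : ∀ t ∈ Icc (0 : ℝ) 1, ∀ x, ‖Z t x‖ ≤ L) :
    ∃ α : V → ℝ → V, (∀ x, α x 0 = x) ∧ (∀ x, ContinuousOn (α x) (Icc 0 1)) ∧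
      (∀ x, ∀ t ∈ Ico (0 : ℝ) 1, HasDerivWithinAt (α x) (Z t (α x t)) (Ici t) t) ∧
      Continuous (α · 1) ∧ Bijective (α · 1) ∧ ∀ x, ‖α x 1 - x‖ ≤ L := by
  have pl : ∀ (t₀ : Icc (0 : ℝ) 1) (x : V), IsPicardLindelof Z t₀ x L 0 L K := fun t₀ x =>
    ⟨fun t ht => (h1 t ht).lipschitzOnWith, fun y _ => h2 y, fun t ht y _ => h3 t ht y, by
      have : max (1 - (t₀ : ℝ)) (t₀ - 0) ≤ 1 := max_le (by linarith [t₀.2.1]) (by linarith [t₀.2.2])
      simpa using mul_le_of_le_one_right L.coe_nonneg this⟩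
  choose α a1 a2 using fun x =>
    (pl ⟨0, left_mem_Icc.2 zero_le_one⟩ x).exists_eq_forall_mem_Icc_hasDerivWithinAt₀
  have c : ∀ {β : ℝ → V}, (∀ t ∈ Icc (0 : ℝ) 1, HasDerivWithinAt β (Z t (β t)) (Icc 0 1) t) →
      ContinuousOn β (Icc 0 1) ∧
      (∀ t ∈ Ico (0 : ℝ) 1, HasDerivWithinAt β (Z t (β t)) (Ici t) t) ∧
      ∀ t ∈ Ioc (0 : ℝ) 1, HasDerivWithinAt β (Z t (β t)) (Iic t) t := fun h =>
    ⟨fun t ht => (h t ht).continuousWithinAt,
      fun t ht => (h t (Ico_subset_Icc_self ht)).mono_of_mem_nhdsWithin (Icc_mem_nhdsGE_of_mem ht),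
      fun t ht => (h t (Ioc_subset_Icc_self ht)).mono_of_mem_nhdsWithin (Icc_mem_nhdsLE_of_mem ht)⟩
  have one : (1 : ℝ) ∈ Icc (0 : ℝ) 1 := right_mem_Icc.2 zero_le_one
  have zero : (0 : ℝ) ∈ Icc (0 : ℝ) 1 := left_mem_Icc.2 zero_le_one
  refine ⟨α, a1, fun x => (c (a2 x)).1, fun x => (c (a2 x)).2.1, ?_, ⟨fun x y h => ?_, fun y => ?_⟩,
    fun x => ?_⟩
  · refine (LipschitzWith.of_dist_le_mul (K := ⟨Real.exp K, (Real.exp_pos _).le⟩)
      fun x y => ?_).continuous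
    have := dist_le_of_trajectories_ODE_of_mem (v := Z) (s := fun _ => univ) (K := K)
      (fun t ht => (h1 t (Ico_subset_Icc_self ht)).lipschitzOnWith) (c (a2 x)).1 (c (a2 x)).2.1
      (fun _ _ => trivial) (c (a2 y)).1 (c (a2 y)).2.1 (fun _ _ => trivial) le_rfl 1 one
    have b1 : α x 0 = x := a1 x
    have b2 : α y 0 = y := a1 y
    rw [b1, b2, sub_zero, mul_one, mul_comm] at this
    exact this
  · have := ODE_solution_unique_of_mem_Icc_left (v := Z) (s := fun _ => univ) (K := K)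
      (fun t ht => (h1 t (Ioc_subset_Icc_self ht)).lipschitzOnWith) (c (a2 x)).1 (c (a2 x)).2.2
      (fun _ _ => trivial) (c (a2 y)).1 (c (a2 y)).2.2 (fun _ _ => trivial) h zero
    exact (a1 x).symm.trans (this.trans (a1 y))
  · obtain ⟨β, b1, b2⟩ := (pl ⟨1, one⟩ y).exists_eq_forall_mem_Icc_hasDerivWithinAt₀
    have := ODE_solution_unique_of_mem_Icc_right (v := Z) (s := fun _ => univ) (K := K)
      (fun t ht => (h1 t (Ico_subset_Icc_self ht)).lipschitzOnWith) (c (a2 (β 0))).1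
      (c (a2 (β 0))).2.1 (fun _ _ => trivial) (c b2).1 (c b2).2.1 (fun _ _ => trivial) (a1 _) one
    exact ⟨β 0, this.trans b1⟩
  · have := norm_image_sub_le_of_norm_deriv_right_le_segment (c (a2 x)).1 (c (a2 x)).2.1
      (fun t ht => h3 t (Ico_subset_Icc_self ht) _) 1 one
    have b1 : α x 0 = x := a1 x
    rwa [b1, sub_zero, mul_one] at this

/-- Bounded by `K` and `K`-Lipschitz. -/
structure BL {W : Type} [NormedAddCommGroup W] (K : ℝ) (a : V → W) : Prop where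
  bd : ∀ x, ‖a x‖ ≤ K
  lip : ∀ x y, ‖a x - a y‖ ≤ K * ‖x - y‖

omit [NormedSpace ℝ V] in
theorem BL.nonneg {W : Type} [NormedAddCommGroup W] {K : ℝ} {a : V → W} (h : BL K a) : 0 ≤ K :=
  (norm_nonneg _).trans (h.bd 0)

omit [NormedSpace ℝ V] in
theorem BL.mono {W : Type} [NormedAddCommGroup W] {K K' : ℝ} {a : V → W} (h : BL K a)
    (hK : K ≤ K') : BL K' a :=
  ⟨fun x => (h.bd x).trans hK,
    fun x y => (h.lip x y).trans (mul_le_mul_of_nonneg_right hK (norm_nonneg _))⟩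

omit [NormedSpace ℝ V] in
theorem BL.smul {W : Type} [NormedAddCommGroup W] [NormedSpace ℝ W] {K K' : ℝ} {a : V → ℝ}
    {Y : V → W} (h : BL K a) (h' : BL K' Y) : BL (2 * K * K') fun x => a x • Y x := by
  have k1 := h.nonneg
  have k2 := h'.nonneg
  refine ⟨fun x => ?_, fun x y => ?_⟩
  · rw [norm_smul]
    have := mul_le_mul (h.bd x) (h'.bd x) (norm_nonneg _) k1
    nlinarith [mul_nonneg k1 k2]
  · have e : a x • Y x - a y • Y y = a x • (Y x - Y y) + (a x - a y) • Y y := by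
      rw [smul_sub, sub_smul]
      abel
    have b1 := mul_le_mul (h.bd x) (h'.lip x y) (norm_nonneg _) k1
    have b2 := mul_le_mul (h.lip x y) (h'.bd y) (norm_nonneg _) (by positivity)
    rw [e]
    refine (norm_add_le _ _).trans ?_
    rw [norm_smul, norm_smul]
    linarith

omit [NormedSpace ℝ V] in
theorem BL.add {W : Type} [NormedAddCommGroup W] {K K' : ℝ} {a b : V → W} (h : BL K a)
    (h' : BL K' b) : BL (K + K') fun x => a x + b x := by
  refine ⟨fun x => (norm_add_le _ _).trans (add_le_add (h.bd x) (h'.bd x)), fun x y => ?_⟩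
  rw [add_sub_add_comm, add_mul]
  exact (norm_add_le _ _).trans (add_le_add (h.lip x y) (h'.lip x y))

omit [NormedSpace ℝ V] in
theorem BL.inv {K τ : ℝ} {b : V → ℝ} (h : BL K b) (h0 : 0 ≤ τ) (h1 : τ * K ≤ 1 / 2) :
    (∀ x, 1 / 2 ≤ 1 + τ * b x) ∧ BL 2 fun x => (1 + τ * b x)⁻¹ := by
  have a : ∀ x, 1 / 2 ≤ 1 + τ * b x := fun x => by
    have := mul_le_mul_of_nonneg_left (abs_le.1 (h.bd x)).1 h0
    linarith
  have a' : ∀ x, ‖(1 + τ * b x)⁻¹‖ ≤ 2 := fun x => by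
    rw [Real.norm_eq_abs, abs_of_pos (inv_pos.2 (by linarith [a x])), inv_le_comm₀
      (by linarith [a x]) two_pos]
    linarith [a x]
  refine ⟨a, a', fun x y => ?_⟩
  have e : (1 + τ * b x)⁻¹ - (1 + τ * b y)⁻¹
      = -((1 + τ * b x)⁻¹ * (1 + τ * b y)⁻¹ * (τ * (b x - b y))) := by
    have n1 : 1 + τ * b x ≠ 0 := by linarith [a x]
    have n2 : 1 + τ * b y ≠ 0 := by linarith [a y]
    field_simp
    ring
  rw [e, norm_neg, norm_mul, norm_mul, norm_mul, Real.norm_of_nonneg h0]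
  have b1 := mul_le_mul (a' x) (a' y) (norm_nonneg _) two_pos.le
  have b2 : τ * ‖b x - b y‖ ≤ 1 / 2 * ‖x - y‖ := by
    have := mul_le_mul_of_nonneg_left (h.lip x y) h0
    nlinarith [norm_nonneg (x - y)]
  have := mul_le_mul b1 b2 (by positivity) (by norm_num)
  linarith

theorem moser [CompleteSpace V] {u J b : V → ℝ} {Y : V → V} {K : ℝ} (hu : Differentiable ℝ u)
    (hJ : Differentiable ℝ J) (e1 : ∀ x, fderiv ℝ u x (Y x) = J x)
    (e2 : ∀ x, 2 * fderiv ℝ J x (Y x) = b x) (bJ : BL K J) (bb : BL K b) (bY : BL K Y) :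
    ∃ ε : ℝ, 0 < ε ∧ ∃ γ : V → V, Continuous γ ∧ Bijective γ ∧ (∃ L, ∀ x, ‖γ x - x‖ ≤ L) ∧
      (∀ x, u (γ x) = u x + ε * J x ^ 2) ∧
      ∀ f : V → ℝ, Differentiable ℝ f → (∀ x, fderiv ℝ f x (Y x) = 0) → ∀ x, f (γ x) = f x := by
  have hK := bJ.nonneg
  set ε : ℝ := 1 / (2 * (K + 1)) with hε
  have hε0 : 0 < ε := by positivity
  have hε1 : ε * K ≤ 1 / 2 := by
    rw [hε, div_mul_eq_mul_div, div_le_iff₀ (by positivity)]
    linarith
  have hi : ∀ t ∈ Icc (0 : ℝ) 1, _ := fun t ht => bb.inv (τ := (1 - t) * ε)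
    (mul_nonneg (by linarith [ht.2]) hε0.le) (by nlinarith [ht.1, mul_nonneg hε0.le hK])
  have hc : BL ε fun _ : V => ε := ⟨fun _ => (Real.norm_of_nonneg hε0.le).le, fun x y => by
    simpa using by positivity⟩
  set Z : ℝ → V → V := fun t x => (ε • J x) • (1 + (1 - t) * ε * b x)⁻¹ • Y x with hZ
  have hZ1 : ∀ t ∈ Icc (0 : ℝ) 1, BL (2 * (2 * ε * K) * (2 * 2 * K)) (Z t) := fun t ht =>
    (hc.smul bJ).smul ((hi t ht).2.smul bY)
  obtain ⟨α, a0, a1, a2, a3, a4, a5⟩ := time_one (Z := Z)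
    (K := ⟨2 * (2 * ε * K) * (2 * 2 * K), by positivity⟩)
    (L := ⟨2 * (2 * ε * K) * (2 * 2 * K), by positivity⟩)
    (fun t ht => LipschitzWith.of_dist_le_mul fun x y => by
      rw [dist_eq_norm, dist_eq_norm]
      exact (hZ1 t ht).lip x y)
    (fun x => by
      refine continuousOn_const.smul (ContinuousOn.smul (ContinuousOn.inv₀ (by fun_prop)
        fun t ht => ?_) continuousOn_const)
      linarith [(hi t ht).1 x])
    (fun t ht x => (hZ1 t ht).bd x)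
  have one : (1 : ℝ) ∈ Icc (0 : ℝ) 1 := right_mem_Icc.2 zero_le_one
  refine ⟨ε, hε0, (α · 1), a3, a4, ⟨_, a5⟩, fun x => ?_, fun f hf h x => ?_⟩
  · have := constant_of_has_deriv_right_zero
      (f := fun t => u (α x t) + (1 - t) * ε * J (α x t) ^ 2) (a := 0) (b := 1)
      ((hu.continuous.comp_continuousOn (a1 x)).add (ContinuousOn.mul (by fun_prop)
        ((hJ.continuous.comp_continuousOn (a1 x)).pow 2))) (fun t ht => by
        have d1 := (hu (α x t)).hasFDerivAt.comp_hasDerivWithinAt t (a2 x t ht)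
        have d2 := (hJ (α x t)).hasFDerivAt.comp_hasDerivWithinAt t (a2 x t ht)
        have d3 : HasDerivWithinAt (fun t : ℝ => (1 - t) * ε) (-1 * ε) (Ici t) t :=
          ((hasDerivWithinAt_id t _).const_sub 1).mul_const ε
        refine (d1.fun_add (d3.fun_mul (d2.fun_pow 2))).congr_deriv ?_
        have n1 : 1 + (1 - t) * ε * b (α x t) ≠ 0 := by
          linarith [(hi t (Ico_subset_Icc_self ht)).1 (α x t)]
        have n2 : fderiv ℝ J (α x t) (Y (α x t)) = b (α x t) / 2 := by linarith [e2 (α x t)]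
        have n3 := mul_inv_cancel₀ n1
        simp only [hZ, map_smul, e1, n2, smul_eq_mul, comp_apply, Nat.cast_ofNat,
          Nat.add_one_sub_one, pow_one]
        linear_combination (ε * J (α x t) ^ 2) * n3) 1 one
    simpa [a0 x] using this
  · have := constant_of_has_deriv_right_zero (f := fun t => f (α x t)) (a := 0) (b := 1)
      (hf.continuous.comp_continuousOn (a1 x)) (fun t ht => by
        refine ((hf (α x t)).hasFDerivAt.comp_hasDerivWithinAt t (a2 x t ht)).congr_deriv ?_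
        simp only [hZ, map_smul, h, smul_zero]) 1 one
    simpa [a0 x] using this

theorem not_affine {d : ℕ} {γ : E d → E d} {L : ℝ} (h : ∀ x, ‖γ x - x‖ ≤ L) (ha : IsAffine γ) :
    ∃ c, ∀ x, γ x = x + c := by
  obtain ⟨A, c, hA⟩ := ha
  refine ⟨c, fun x => ?_⟩
  by_contra hne
  have h1 : A x - x ≠ 0 := fun h0 => hne (by rw [hA, sub_eq_zero.1 h0])
  have h2 := norm_pos_iff.2 h1
  have h3 := h (((L + ‖c‖ + 1) / ‖A x - x‖) • x)
  have h4 : 0 ≤ L := (norm_nonneg _).trans h3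
  have h5 : ∀ s : ℝ, s • (A x - x) = (γ (s • x) - s • x) - c := fun s => by
    rw [hA, map_smul, smul_sub]
    abel
  have h6 := congrArg norm (h5 ((L + ‖c‖ + 1) / ‖A x - x‖))
  rw [norm_smul, Real.norm_of_nonneg (by positivity), div_mul_cancel₀ _ h2.ne'] at h6
  have h7 := norm_sub_le (γ (((L + ‖c‖ + 1) / ‖A x - x‖) • x) - ((L + ‖c‖ + 1) / ‖A x - x‖) • x) c
  linarith

end Pool.Agent.P.MP_1ad12f_an
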