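import Pool.Agent.P.MP_1ad12f_an.Alg
import Pool.Agent.P.MP_1ad12f_an.Flow

set_option autoImplicit false

open MeasureTheory FourierTransform Complex Filter Topology Metric Function
open scoped ContDiff Real InnerProductSpace

namespace Pool.Agent.P.MP_1ad12f_an

variable {d : ℕ}

/-- The vector field with components `Y j`. -/
noncomputable def vec (Y : Fin d → E d → ℝ) (x : E d) : E d :=
  ∑ j, Y j x • EuclideanSpace.single j (1 : ℝ)

theorem vec_apply (Y : Fin d → E d → ℝ) (x : E d) (j : Fin d) : vec Y x j = Y j x := by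
  simp [vec, Pi.single_apply]

theorem map_vec (L : E d →L[ℝ] ℝ) (Y : Fin d → E d → ℝ) (x : E d) :
    L (vec Y x) = ∑ j, Y j x * L (EuclideanSpace.single j 1) := by
  simp [vec, map_sum, map_smul]

theorem RA.bl {a : E d → ℝ} (h : a ∈ RA d) : ∃ K, BL K a := by
  obtain ⟨M, hM⟩ := RA.bound h
  choose N hN using fun j : Fin d => RA.bound ((RA.diff h).2 (EuclideanSpace.single j 1))
  have h0 : ∀ j, 0 ≤ N j := fun j => (norm_nonneg _).trans (hN j 0)
  have h1 : ∀ x, ‖fderiv ℝ a x‖ ≤ ∑ j, N j := fun x => by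
    refine ContinuousLinearMap.opNorm_le_bound _ (Finset.sum_nonneg fun j _ => h0 j) fun v => ?_
    have h2 : v = vec (fun j y => y j) v := by
      ext j
      rw [vec_apply]
    conv_lhs => rw [h2, map_vec]
    rw [Finset.sum_mul]
    refine (norm_sum_le _ _).trans (Finset.sum_le_sum fun j _ => ?_)
    rw [norm_mul, mul_comm]
    exact mul_le_mul (hN j x) (PiLp.norm_apply_le v j) (norm_nonneg _) (h0 j)
  refine ⟨max M (∑ j, N j), fun x => (hM x).trans (le_max_left _ _), fun x y => ?_⟩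
  exact (convex_univ.norm_image_sub_le_of_norm_fderiv_le (fun z _ => (RA.diff h).1 z)
    (fun z _ => h1 z) (Set.mem_univ y) (Set.mem_univ x)).trans
    (mul_le_mul_of_nonneg_right (le_max_right _ _) (norm_nonneg _))

theorem vec_bl {Y : Fin d → E d → ℝ} (hY : ∀ j, Y j ∈ RA d) : ∃ K, BL K (vec Y) := by
  have : ∀ s : Finset (Fin d),
      ∃ K, BL K fun x => ∑ j ∈ s, Y j x • EuclideanSpace.single j (1 : ℝ) := by
    intro s
    induction s using Finset.induction_on with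
    | empty => exact ⟨0, fun _ => by simp, fun _ _ => by simp⟩
    | insert j s hj ih =>
      obtain ⟨K, hK⟩ := ih
      obtain ⟨K', hK'⟩ := RA.bl (hY j)
      have hc : BL 1 fun _ : E d => (EuclideanSpace.single j (1 : ℝ) : E d) :=
        ⟨fun _ => by simp, fun _ _ => by simp⟩
      simp only [Finset.sum_insert hj]
      exact ⟨_, (hK'.smul hc).add hK⟩
  exact this Finset.univ

theorem RA.dir {a : E d → ℝ} (h : a ∈ RA d) {Y : Fin d → E d → ℝ} (hY : ∀ j, Y j ∈ RA d) :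
    (fun x => fderiv ℝ a x (vec Y x)) ∈ RA d := by
  have : (fun x => fderiv ℝ a x (vec Y x))
      = ∑ j, Y j * fun x => fderiv ℝ a x (EuclideanSpace.single j 1) := by
    ext x
    simp [map_vec]
  rw [this]
  exact Subring.sum_mem _ fun j _ => Subring.mul_mem _ (hY j) ((RA.diff h).2 _)

theorem exists_kernel {m : ℕ} (hm : m < d) {f : Fin m → E d → ℝ} (hf : ∀ i, f i ∈ RA d) :
    ∃ Y : Fin d → E d → ℝ, (∀ j, Y j ∈ RA d) ∧ (∃ x, vec Y x ≠ 0) ∧
      ∀ i x, fderiv ℝ (f i) x (vec Y x) = 0 := by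
  let A : Matrix (Fin m) (Fin d) (RA d) := fun i j =>
    ⟨_, (RA.diff (hf i)).2 (EuclideanSpace.single j 1)⟩
  have h1 : ¬ Injective (Matrix.mulVecLin A) := fun h =>
    absurd (le_of_fin_injective _ _ h) (not_le.2 hm)
  rw [injective_iff_map_eq_zero] at h1
  push Not at h1
  obtain ⟨Y, h2, h3⟩ := h1
  refine ⟨fun j => Y j, fun j => (Y j).2, ?_, fun i x => ?_⟩
  · by_contra h
    push Not at h
    apply h3
    ext j x
    have := congrArg (fun v : E d => v j) (h x)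
    simpa [vec_apply] using this
  · have h4 := congrFun (congrArg Subtype.val (congrFun h2 i)) x
    rw [map_vec]
    simpa [Matrix.mulVec, dotProduct, A, mul_comm] using h4

theorem warp {u : E d → ℝ} (hu : u ∈ RA d) {Y : Fin d → E d → ℝ} (hY : ∀ j, Y j ∈ RA d)
    (hT : ∀ c, (∀ x, u x ≤ u (x + c)) → ∀ x, u (x + c) = u x)
    (hJ : ∃ x, fderiv ℝ u x (vec Y x) ≠ 0) :
    ∃ γ : E d → E d, Continuous γ ∧ Bijective γ ∧ ¬ IsAffine γ ∧ (fun x => u (γ x)) ∈ RA d ∧
      ∀ f : E d → ℝ, Differentiable ℝ f → (∀ x, fderiv ℝ f x (vec Y x) = 0) →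
        ∀ x, f (γ x) = f x := by
  have m1 := RA.dir hu hY
  have m2 := Subring.mul_mem _ (RA.const 2) (RA.dir m1 hY)
  obtain ⟨K1, b1⟩ := RA.bl m1
  obtain ⟨K2, b2⟩ := RA.bl m2
  obtain ⟨K3, b3⟩ := vec_bl hY
  obtain ⟨ε, hε, γ, c1, c2, ⟨L, c3⟩, c4, c5⟩ := moser (K := max K1 (max K2 K3)) (RA.diff hu).1
    (RA.diff m1).1 (fun _ => rfl) (fun _ => rfl) (b1.mono (le_max_left _ _))
    (b2.mono ((le_max_left _ _).trans (le_max_right _ _)))
    (b3.mono ((le_max_right _ _).trans (le_max_right _ _)))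
  refine ⟨γ, c1, c2, fun h => ?_, ?_, c5⟩
  · obtain ⟨c, hc⟩ := not_affine c3 h
    obtain ⟨x, hx⟩ := hJ
    have h1 := hT c (fun y => by
      rw [← hc, c4]
      exact le_add_of_nonneg_right (by positivity)) x
    rw [← hc, c4] at h1
    have h2 : 0 < ε * fderiv ℝ u x (vec Y x) ^ 2 := by positivity
    linarith
  · simp only [c4]
    exact Subring.add_mem _ hu (Subring.mul_mem _ (RA.const ε) (Subring.pow_mem _ m1 2))

theorem shift_bandlimited {u : E d → ℝ} (hu : Bandlimited fun x => (u x : ℂ)) (c : E d)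
    (h : ∀ x, u x ≤ u (x + c)) (x : E d) : u (x + c) = u x := by
  obtain ⟨M, hM⟩ := hu.wien.bound
  obtain ⟨h1, h2, -⟩ := hu
  have h3 : Continuous u := Complex.continuous_re.comp h1
  have h4 : Integrable fun x => u x ^ 2 := by
    simpa using (memLp_two_iff_integrable_sq_norm h2.1).1 h2
  have h5 : Integrable fun x => u x ^ 3 := by
    simpa only [pow_succ _ 2] using h4.mul_bdd (c := M) h3.aestronglyMeasurable
      (Eventually.of_forall fun x => by simpa using hM x)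
  have h6 : StrictMono fun t : ℝ => t ^ 3 := Odd.strictMono_pow (by decide)
  have h7 : ∫ x, (u (x + c) ^ 3 - u x ^ 3) = 0 := by
    rw [integral_sub (h5.comp_add_right c) h5, integral_add_right_eq_self (fun x => u x ^ 3),
      sub_self]
  rw [integral_eq_zero_iff_of_nonneg (fun x => sub_nonneg.2 (h6.monotone (h x)))
    ((h5.comp_add_right c).sub h5)] at h7
  have h9 : Continuous fun x => u (x + c) ^ 3 - u x ^ 3 :=
    ((h3.comp (continuous_id.add continuous_const)).pow 3).sub (h3.pow 3)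
  have h8 := (Continuous.ae_eq_iff_eq volume h9 continuous_zero).1 h7
  exact h6.injective (sub_eq_zero.1 (congrFun h8 x))

theorem conj_ch (x ξ : E d) : (starRingEnd ℂ) (ch x ξ) = ch x (-ξ) := by
  simp only [ch, ← Complex.exp_conj, map_mul, conj_ofReal, conj_I, inner_neg_right]
  congr 1
  push_cast
  ring

theorem exists_wave (x₀ : E d) {ξ : E d} (hξ : ξ ≠ 0) : ∃ u ∈ RA d,
    (∀ c, (∀ x, u x ≤ u (x + c)) → ∀ x, u (x + c) = u x) ∧ fderiv ℝ u x₀ ξ ≠ 0 := by
  set κ : ℂ := -I * ch x₀ (-ξ) with hκ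
  have hn : ⟪ξ, ξ⟫_ℝ ≠ 0 := inner_self_ne_zero.2 hξ
  refine ⟨fun x => (κ * ch x ξ).re, ?_, fun c h x => ?_, ?_⟩
  · change Alg fun x => (((κ * ch x ξ).re : ℝ) : ℂ)
    simp only [Complex.re_eq_add_conj, map_mul, conj_ch, div_eq_mul_inv]
    exact (((Alg.const _).mul (Alg.char _)).add ((Alg.const _).mul (Alg.char _))).mul
      (Alg.const _)
  · have hp : ch ((2 * ⟪ξ, ξ⟫_ℝ)⁻¹ • ξ) ξ = -1 := by
      rw [ch, real_inner_smul_left, ← Complex.exp_pi_mul_I]
      congr 3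
      field_simp
    have h1 := h (x + (2 * ⟪ξ, ξ⟫_ℝ)⁻¹ • ξ)
    beta_reduce at h1
    rw [add_right_comm, ch_add_left, ch_add_left (x + c), hp] at h1
    simp only [mul_neg, mul_one, neg_re] at h1
    exact le_antisymm (by linarith) (h x)
  · have h1 := (((contDiff_ch ξ).differentiable (by simp)) x₀).hasFDerivAt
    have h2 := (Complex.reCLM.hasFDerivAt.comp x₀ (h1.const_mul κ)).fderiv
    have h3 : ch x₀ (-ξ) * ch x₀ ξ = 1 := by rw [← ch_add, neg_add_cancel, ch_zero]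
    have h4 : κ * (((2 * π * ⟪ξ, ξ⟫_ℝ : ℝ) : ℂ) * I * ch x₀ ξ) = ((2 * π * ⟪ξ, ξ⟫_ℝ : ℝ) : ℂ) := by
      rw [hκ]
      linear_combination (((2 * π * ⟪ξ, ξ⟫_ℝ : ℝ) : ℂ)) * h3
        - (((2 * π * ⟪ξ, ξ⟫_ℝ : ℝ) : ℂ) * ch x₀ (-ξ) * ch x₀ ξ) * Complex.I_mul_I
    change fderiv ℝ (Complex.reCLM ∘ fun x => κ * ch x ξ) x₀ ξ ≠ 0
    rw [h2, ContinuousLinearMap.comp_apply, smul_apply, fderiv_ch, smul_eq_mul, h4,
      Complex.reCLM_apply, Complex.ofReal_re]
    exact mul_ne_zero (mul_ne_zero two_ne_zero Real.pi_ne_zero) hn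

theorem lower {m : ℕ} (hm : m < d) {f : Fin (m + 1) → E d → ℝ}
    (hf : ∀ i, Bandlimited fun x => (f i x : ℂ)) :
    ∃ γ : E d → E d, Continuous γ ∧ Bijective γ ∧ ¬ IsAffine γ ∧
      ∀ i, CompactSpectrum fun x => (f i (γ x) : ℂ) := by
  have hA : ∀ i, f i ∈ RA d := fun i => Alg.wien (hf i).wien
  obtain ⟨Y, hY, ⟨x₀, h0⟩, h1⟩ := exists_kernel hm fun i => hA i.succ
  by_cases hJ : ∃ x, fderiv ℝ (f 0) x (vec Y x) ≠ 0
  · obtain ⟨γ, c1, c2, c3, c4, c5⟩ := warp (hA 0) hY (shift_bandlimited (hf 0)) hJ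
    refine ⟨γ, c1, c2, c3, fun i => Fin.cases (Alg.spec c4) (fun i => ?_) i⟩
    simp only [c5 _ (RA.diff (hA i.succ)).1 (h1 i)]
    exact Alg.spec (hA i.succ)
  · push Not at hJ
    obtain ⟨u, hu, hT, h2⟩ := exists_wave x₀ h0
    obtain ⟨γ, c1, c2, c3, -, c5⟩ := warp hu hY hT ⟨x₀, h2⟩
    refine ⟨γ, c1, c2, c3, fun i => ?_⟩
    simp only [c5 _ (RA.diff (hA i)).1 (Fin.cases hJ h1 i)]
    exact Alg.spec (hA i)

end Pool.Agent.P.MP_1ad12f_an
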