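import Pool.Agent.P.MP_1ad12f_an.Basic

set_option autoImplicit false

open MeasureTheory FourierTransform Complex Filter Topology LineDeriv
open scoped ContDiff Real InnerProductSpace SchwartzMap Nat

namespace Pool.Agent.P.MP_1ad12f_an

variable {d : ℕ}

/-- Entire of exponential type. -/
def ExpType (Φ : ℂ → ℂ) : Prop :=
  Differentiable ℂ Φ ∧ ∃ A c : ℝ, 0 ≤ c ∧ ∀ z, ‖Φ z‖ ≤ A * Real.exp (c * ‖z‖)

theorem taylor_real {g : ℕ → ℝ → ℂ} (hg : ∀ n t, HasDerivAt (g n) (g (n + 1) t) t) (t : ℝ)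
    (N : ℕ) (s : ℝ) :
    HasDerivAt (fun s : ℝ => ∑ n ∈ Finset.range (N + 1), g n s * ((t : ℂ) - s) ^ n / (n ! : ℂ))
      (g (N + 1) s * ((t : ℂ) - s) ^ N / (N ! : ℂ)) s := by
  induction N with
  | zero => simpa using hg 0 s
  | succ N ih =>
    simp only [Finset.sum_range_succ _ (N + 1)]
    have h1 : HasDerivAt (fun s : ℝ => (t : ℂ) - s) (-1) s := by
      simpa using (Complex.ofRealCLM.hasDerivAt (x := s)).const_sub (t : ℂ)
    have h2 := (((hg (N + 1) s).fun_mul (h1.fun_pow (N + 1))).div_const ((N + 1)! : ℂ))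
    have h3 := ih.fun_add h2
    refine h3.congr_deriv ?_
    have h4 : ((N ! : ℕ) : ℂ) ≠ 0 := Nat.cast_ne_zero.2 (Nat.factorial_ne_zero N)
    have h5 : ((N : ℂ) + 1) ≠ 0 := by exact_mod_cast Nat.succ_ne_zero N
    simp only [Nat.factorial_succ, Nat.add_sub_cancel]
    push_cast
    field_simp
    ring

theorem entire_of_derivs {g : ℕ → ℝ → ℂ} (hg : ∀ n t, HasDerivAt (g n) (g (n + 1) t) t)
    {M c : ℝ} (hc : 0 ≤ c) (hb : ∀ n t, ‖g n t‖ ≤ M * c ^ n) :
    ∃ Φ : ℂ → ℂ, ExpType Φ ∧ ∀ t : ℝ, Φ t = g 0 t := by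
  have hM : 0 ≤ M := by simpa using (norm_nonneg _).trans (hb 0 0)
  have hterm : ∀ (n : ℕ) (z : ℂ) (r : ℝ), ‖z‖ ≤ r →
      ‖g n 0 * z ^ n / (n ! : ℂ)‖ ≤ M * ((c * r) ^ n / (n ! : ℝ)) := by
    intro n z r hz
    rw [norm_div, norm_mul, norm_pow, Complex.norm_natCast, mul_pow, ← mul_div_assoc, ← mul_assoc]
    gcongr
    exact hb n 0
  have hsum : ∀ x : ℝ, HasSum (fun n : ℕ => M * (x ^ n / (n ! : ℝ))) (M * Real.exp x) := by
    intro x
    rw [Real.exp_eq_exp_ℝ]
    exact (NormedSpace.expSeries_div_hasSum_exp x).mul_left M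
  refine ⟨fun z => ∑' n, g n 0 * z ^ n / (n ! : ℂ), ⟨fun z => ?_, M, c, hc, fun z => ?_⟩,
    fun t => ?_⟩
  · have : DifferentiableOn ℂ (fun z : ℂ => ∑' n, g n 0 * z ^ n / (n ! : ℂ))
        (Metric.ball 0 (‖z‖ + 1)) :=
      Complex.differentiableOn_tsum_of_summable_norm (hsum (c * (‖z‖ + 1))).summable
        (fun n => by fun_prop) Metric.isOpen_ball
        (fun n w hw => hterm n w _ (mem_ball_zero_iff.1 hw).le)
    exact this.differentiableAt (Metric.isOpen_ball.mem_nhds (by simp))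
  · exact tsum_of_norm_bounded (hsum (c * ‖z‖)) fun n => hterm n z _ le_rfl
  · have hs : Summable fun n : ℕ => g n 0 * (t : ℂ) ^ n / (n ! : ℂ) :=
      Summable.of_norm_bounded (hsum (c * ‖(t : ℂ)‖)).summable fun n => hterm n t _ le_rfl
    have l1 := (hs.hasSum.tendsto_sum_nat).comp (tendsto_add_atTop_nat 1)
    refine tendsto_nhds_unique l1 ?_
    rw [tendsto_iff_norm_sub_tendsto_zero]
    have l2 : Tendsto (fun N : ℕ => (M * c * |t|) * ((c * |t|) ^ N / (N ! : ℝ))) atTop (𝓝 0) := by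
      simpa using ((Real.summable_pow_div_factorial (c * |t|)).tendsto_atTop_zero).const_mul
        (M * c * |t|)
    refine squeeze_zero (fun N => norm_nonneg _) (fun N => ?_) l2
    have key := Convex.norm_image_sub_le_of_norm_hasDerivWithin_le
      (f := fun s : ℝ => ∑ n ∈ Finset.range (N + 1), g n s * ((t : ℂ) - s) ^ n / (n ! : ℂ))
      (s := Set.uIcc 0 t) (C := M * c * ((c * |t|) ^ N / (N ! : ℝ))) (x := t) (y := 0)
      (fun s _ => (taylor_real hg t N s).hasDerivWithinAt) (fun s hs => by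
        have h1 : ‖(t : ℂ) - s‖ ≤ |t| := by
          rw [← Complex.ofReal_sub, Complex.norm_real, Real.norm_eq_abs]
          have := Set.abs_sub_right_of_mem_uIcc hs
          simpa using this
        rw [norm_div, norm_mul, norm_pow, Complex.norm_natCast, mul_pow, ← mul_div_assoc]
        have h2 := hb (N + 1) s
        calc ‖g (N + 1) s‖ * ‖(t : ℂ) - s‖ ^ N / (N ! : ℝ)
            ≤ (M * c ^ (N + 1)) * |t| ^ N / (N ! : ℝ) := by gcongr
          _ = _ := by ring) (convex_uIcc 0 t) Set.right_mem_uIcc Set.left_mem_uIcc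
    have e1 : ∑ n ∈ Finset.range (N + 1), g n t * ((t : ℂ) - t) ^ n / (n ! : ℂ) = g 0 t := by
      rw [Finset.sum_range_succ']
      simp
    simp only [e1, Complex.ofReal_zero, sub_zero, zero_sub, norm_neg, Real.norm_eq_abs] at key
    calc _ ≤ _ := key
      _ = _ := by ring

noncomputable def conv (k G : E d → ℂ) (x : E d) : ℂ := ∫ y, k (y - x) * G y

theorem conv_eq (k G : E d → ℂ) (x : E d) : conv k G x = ∫ u, k u * G (x + u) := by
  rw [conv, ← integral_add_left_eq_self _ x]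
  simp only [add_sub_cancel_left]

theorem conv_continuous {k G : E d → ℂ} (hk : Integrable k) (hG : Continuous G) {M : ℝ}
    (hM : ∀ x, ‖G x‖ ≤ M) : Continuous (conv k G) := by
  have : conv k G = fun x => ∫ u, k u * G (x + u) := funext (conv_eq k G)
  rw [this]
  apply continuous_of_dominated (bound := fun u => ‖k u‖ * M)
  · exact fun x => hk.aestronglyMeasurable.mul (hG.comp (by fun_prop)).aestronglyMeasurable
  · refine fun x => Eventually.of_forall fun u => ?_
    rw [norm_mul]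
    exact mul_le_mul_of_nonneg_left (hM _) (norm_nonneg _)
  · exact hk.norm.mul_const M
  · exact Eventually.of_forall fun u => continuous_const.mul (hG.comp (by fun_prop))

theorem conv_bound {k G : E d → ℂ} (hk : Integrable k) {M : ℝ}
    (hM : ∀ x, ‖G x‖ ≤ M) (x : E d) : ‖conv k G x‖ ≤ M * ∫ u, ‖k u‖ := by
  rw [conv_eq, mul_comm, ← integral_mul_const]
  refine norm_integral_le_of_norm_le (hk.norm.mul_const M) (Eventually.of_forall fun u => ?_)
  rw [norm_mul]
  exact mul_le_mul_of_nonneg_left (hM _) (norm_nonneg _)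

theorem conv_deriv (k : 𝓢(E d, ℂ)) {G : E d → ℂ} (hG : Continuous G) {M : ℝ}
    (hM : ∀ x, ‖G x‖ ≤ M) (x v : E d) (t₀ : ℝ) :
    HasDerivAt (fun t : ℝ => conv k G (x + t • v))
      (conv (-(∂_{v} k) : 𝓢(E d, ℂ)) G (x + t₀ • v)) t₀ := by
  set k' : 𝓢(E d, ℂ) := -(∂_{v} k) with hk'
  set N := Module.finrank ℝ (E d) + 1 with hN
  obtain ⟨C, hC⟩ : ∃ C : ℝ, ∀ z, (1 + ‖z‖) ^ N * ‖k' z‖ ≤ C := by
    have := fun z => SchwartzMap.one_add_le_sup_seminorm_apply (𝕜 := ℂ) (m := (N, 0)) (k := N)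
      (n := 0) le_rfl le_rfl k' z
    simp only [norm_iteratedFDeriv_zero] at this
    exact ⟨_, this⟩
  have hM0 : 0 ≤ M := (norm_nonneg _).trans (hM 0)
  have hint : Integrable fun y : E d => (1 + ‖y - (x + t₀ • v)‖) ^ (-(N : ℝ)) :=
    (integrable_one_add_norm (E := E d) (μ := volume) (r := (N : ℝ))
      (by rw [hN]; push_cast; linarith)).comp_sub_right _
  refine (hasDerivAt_integral_of_dominated_loc_of_deriv_le (μ := volume)
    (F := fun (t : ℝ) (y : E d) => k (y - (x + t • v)) * G y)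
    (F' := fun (t : ℝ) (y : E d) => k' (y - (x + t • v)) * G y)
    (bound := fun y => (C * (1 + ‖v‖) ^ N * M) * (1 + ‖y - (x + t₀ • v)‖) ^ (-(N : ℝ)))
    (Metric.ball_mem_nhds t₀ one_pos) ?_ ?_ ?_ ?_ (hint.const_mul _) ?_).2
  · exact Eventually.of_forall fun t =>
      ((k.continuous.comp (by fun_prop)).mul hG).aestronglyMeasurable
  · exact integrable_mul_bdd (k.integrable.comp_sub_right _) hG hM
  · exact ((k'.continuous.comp (by fun_prop)).mul hG).aestronglyMeasurable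
  · refine Eventually.of_forall fun y t ht => ?_
    set z₀ := y - (x + t₀ • v)
    set z := y - (x + t • v)
    have h1 : z₀ = z + (t - t₀) • v := by
      simp only [z₀, z, sub_smul]
      abel
    have h2 : ‖(t - t₀) • v‖ ≤ ‖v‖ := by
      rw [norm_smul]
      exact mul_le_of_le_one_left (norm_nonneg _) (mem_ball_iff_norm.1 ht).le
    have h3 : 1 + ‖z₀‖ ≤ (1 + ‖z‖) * (1 + ‖v‖) := by
      have := norm_add_le z ((t - t₀) • v)
      rw [← h1] at this
      nlinarith [norm_nonneg z, norm_nonneg v, mul_nonneg (norm_nonneg z) (norm_nonneg v)]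
    have h4 : (1 + ‖z₀‖) ^ N * ‖k' z‖ ≤ C * (1 + ‖v‖) ^ N := by
      calc (1 + ‖z₀‖) ^ N * ‖k' z‖ ≤ ((1 + ‖z‖) * (1 + ‖v‖)) ^ N * ‖k' z‖ := by gcongr
        _ = ((1 + ‖z‖) ^ N * ‖k' z‖) * (1 + ‖v‖) ^ N := by rw [mul_pow]; ring
        _ ≤ _ := by gcongr; exact hC z
    have h5 : 0 < (1 + ‖z₀‖) ^ N := by positivity
    rw [Real.rpow_neg (by positivity), Real.rpow_natCast, ← div_eq_mul_inv, le_div_iff₀ h5,
      norm_mul]
    calc ‖k' z‖ * ‖G y‖ * (1 + ‖z₀‖) ^ N = ((1 + ‖z₀‖) ^ N * ‖k' z‖) * ‖G y‖ := by ring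
      _ ≤ _ := mul_le_mul h4 (hM y) (norm_nonneg _) (le_trans (by positivity) h4)
  · refine Eventually.of_forall fun y t _ => ?_
    apply HasDerivAt.mul_const
    have h1 : HasDerivAt (fun t : ℝ => y - (x + t • v)) (-v) t := by
      simpa using (((hasDerivAt_id t).smul_const v).const_add x).const_sub y
    have h2 := (k.hasFDerivAt (y - (x + t • v))).comp_hasDerivAt t h1
    refine h2.congr_deriv ?_
    rw [hk', map_neg]
    simp [SchwartzMap.lineDerivOp_apply_eq_fderiv]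

theorem step (k : 𝓢(E d, ℂ)) (v : E d) {G : E d → ℂ} (hG : Continuous G) {M : ℝ}
    (hM : ∀ x, ‖G x‖ ≤ M) (hr : ∀ x, G x = conv k G x) (x : E d) :
    conv (-(∂_{v} k) : 𝓢(E d, ℂ)) G x = conv k (conv (-(∂_{v} k) : 𝓢(E d, ℂ)) G) x := by
  set k' : 𝓢(E d, ℂ) := -(∂_{v} k) with hk'
  have hd : ∀ y (t : ℝ), HasDerivAt (fun t : ℝ => G (y + t • v)) (conv k' G (y + t • v)) t := by
    intro y t
    have := conv_deriv k hG hM y v t
    simpa only [← hr] using this
  have hc := conv_continuous k'.integrable hG hM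
  have h2 := (hasDerivAt_integral_of_dominated_loc_of_deriv_le (μ := volume) (x₀ := (0 : ℝ))
    (F := fun (t : ℝ) (u : E d) => k u * G (x + u + t • v))
    (F' := fun (t : ℝ) (u : E d) => k u * conv k' G (x + u + t • v))
    (bound := fun u => ‖k u‖ * (M * ∫ u, ‖k' u‖)) (s := Set.univ) univ_mem
    (Eventually.of_forall fun t =>
      (k.continuous.mul (hG.comp (by fun_prop))).aestronglyMeasurable)
    (integrable_mul_bdd k.integrable (hG.comp (by fun_prop)) (fun u => hM _))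
    (k.continuous.mul (hc.comp (by fun_prop))).aestronglyMeasurable
    (Eventually.of_forall fun u t _ => by
      rw [norm_mul]
      exact mul_le_mul_of_nonneg_left (conv_bound k'.integrable hM _) (norm_nonneg _))
    (k.integrable.norm.mul_const _)
    (Eventually.of_forall fun u t _ => (hd (x + u) t).const_mul _)).2
  have h3 : (fun t : ℝ => ∫ u, k u * G (x + u + t • v)) = fun t : ℝ => G (x + t • v) := by
    ext t
    rw [hr (x + t • v), conv_eq]
    simp only [add_right_comm x _ (t • v)]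
  rw [h3] at h2
  have h4 := (hd x 0).unique h2
  simp only [zero_smul, add_zero] at h4
  rw [h4, conv_eq]

theorem paley_wiener {F : E d → ℂ} (hF : Continuous F) {M : ℝ} (hM : ∀ x, ‖F x‖ ≤ M)
    (hc : CompactSpectrum F) (x v : E d) :
    ∃ Φ : ℂ → ℂ, ExpType Φ ∧ ∀ t : ℝ, Φ t = F (x + t • v) := by
  obtain ⟨k, hk⟩ := repro hF hM hc
  set k' : 𝓢(E d, ℂ) := -(∂_{v} k) with hk'
  set c := ∫ u, ‖k' u‖ with hc'
  have hc0 : 0 ≤ c := integral_nonneg fun u => norm_nonneg _
  let G : ℕ → E d → ℂ := fun n => (conv k')^[n] F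
  have hGs : ∀ n, G (n + 1) = conv k' (G n) := fun n => Function.iterate_succ_apply' _ _ _
  have hG : ∀ n, Continuous (G n) ∧ (∀ y, ‖G n y‖ ≤ M * c ^ n) ∧
      ∀ y, G n y = conv k (G n) y := by
    intro n
    induction n with
    | zero => exact ⟨hF, by simpa [G] using hM, hk⟩
    | succ n ih =>
      rw [hGs]
      refine ⟨conv_continuous k'.integrable ih.1 ih.2.1, fun y => ?_,
        step k v ih.1 ih.2.1 ih.2.2⟩
      rw [pow_succ, ← mul_assoc]
      exact conv_bound k'.integrable ih.2.1 y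
  refine entire_of_derivs (g := fun n t => G n (x + t • v)) (M := M) (c := c) (fun n t => ?_) hc0
    fun n t => (hG n).2.1 _
  have := conv_deriv k (hG n).1 (hG n).2.1 x v t
  simp only [← (hG n).2.2] at this
  simpa only [hGs] using this

end Pool.Agent.P.MP_1ad12f_an
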