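import Pool.Agent.P.MP_1ad12f_an.Quot

set_option autoImplicit false

open Complex Filter Topology Metric Set
open scoped Real

namespace Pool.Agent.P.MP_1ad12f_an

/-- `f t` is asymptotic to `c t^m (log (1/t))^e` as `t → 0+`. -/
def Pw (f : ℝ → ℝ) (e : ℕ) : Prop :=
  ∃ (m : ℤ) (c : ℝ), 0 < c ∧
    Tendsto (fun t => f t / (t ^ m * (-Real.log t) ^ e)) (𝓝[>] 0) (𝓝 c)

theorem Pw.congr {f g : ℝ → ℝ} {e : ℕ} (h : Pw f e) (hfg : f =ᶠ[𝓝[>] 0] g) : Pw g e := by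
  obtain ⟨m, c, hc, h⟩ := h
  exact ⟨m, c, hc, h.congr' (hfg.mono fun t ht => by simp only [ht])⟩

theorem Pw.mul {f g : ℝ → ℝ} {e e' : ℕ} (h : Pw f e) (h' : Pw g e') :
    Pw (fun t => f t * g t) (e + e') := by
  obtain ⟨m, c, hc, h⟩ := h
  obtain ⟨m', c', hc', h'⟩ := h'
  refine ⟨m + m', c * c', mul_pos hc hc', (h.mul h').congr' ?_⟩
  filter_upwards [self_mem_nhdsWithin] with t ht
  rw [zpow_add₀ (ne_of_gt ht), pow_add, div_mul_div_comm]
  congr 1
  ring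

theorem Pw.of_tendsto {f : ℝ → ℝ} {c : ℝ} (hc : 0 < c) (h : Tendsto f (𝓝[>] 0) (𝓝 c)) :
    Pw f 0 := ⟨0, c, hc, by simpa using h⟩

theorem Pw.prod {ι : Type} (s : Finset ι) {f : ι → ℝ → ℝ} {e : ι → ℕ}
    (h : ∀ i, Pw (f i) (e i)) : Pw (fun t => ∏ i ∈ s, f i t) (∑ i ∈ s, e i) := by
  classical
  induction s using Finset.induction_on with
  | empty => simpa using Pw.of_tendsto one_pos tendsto_const_nhds
  | insert a s ha ih =>
    simp only [Finset.prod_insert ha, Finset.sum_insert ha]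
    exact (h a).mul ih

theorem Pw.ne_zero {f : ℝ → ℝ} {e : ℕ} (h : Pw f e) : ∀ᶠ t in 𝓝[>] (0 : ℝ), f t ≠ 0 := by
  obtain ⟨m, c, hc, h⟩ := h
  filter_upwards [h.eventually_ne hc.ne'] with t ht h0
  exact ht (by simp [h0])

theorem Pw.unique {f : ℝ → ℝ} {e : ℕ} (h0 : Pw f 0) (h : Pw f e) : e = 0 := by
  by_contra he
  have hne := h0.ne_zero
  obtain ⟨m, c, hc, h0⟩ := h0
  obtain ⟨m', c', hc', h⟩ := h
  have h1 : Tendsto (fun t : ℝ => t ^ (m' - m) * (-Real.log t) ^ e) (𝓝[>] 0) (𝓝 (c / c')) := by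
    refine (h0.div h hc'.ne').congr' ?_
    filter_upwards [hne, Ioo_mem_nhdsGT one_pos] with t ht ht'
    have a1 : Real.log t ≠ 0 := (Real.log_neg ht'.1 ht'.2).ne
    have a2 : t ≠ 0 := ht'.1.ne'
    have a3 : t ^ m ≠ 0 := zpow_ne_zero _ a2
    have a4 : t ^ m' ≠ 0 := zpow_ne_zero _ a2
    have a5 : (-Real.log t) ^ e ≠ 0 := pow_ne_zero _ (neg_ne_zero.2 a1)
    simp only [Pi.div_apply, zpow_sub₀ a2]
    field_simp
  have h2 : Tendsto (fun s : ℝ => Real.exp (-s)) atTop (𝓝[>] 0) :=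
    Real.tendsto_exp_atBot_nhdsGT.comp tendsto_neg_atTop_atBot
  have h3 := h1.comp h2
  simp only [Function.comp_def, Real.log_exp, neg_neg] at h3
  have hpos : 0 < c / c' := div_pos hc hc'
  rcases le_or_gt (m' - m) 0 with hk | hk
  · refine not_tendsto_atTop_of_tendsto_nhds h3 (tendsto_atTop_mono' _ ?_ tendsto_id)
    filter_upwards [eventually_ge_atTop 1] with s hs
    have a1 : Real.exp (-s) ≤ 1 := Real.exp_le_one_iff.2 (by linarith)
    have a2 : 1 ≤ Real.exp (-s) ^ (m' - m) := one_le_zpow_of_nonpos₀ (Real.exp_pos _) a1 hk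
    have a3 : s ≤ s ^ e := le_self_pow₀ hs he
    calc id s = 1 * s := by simp
      _ ≤ _ := mul_le_mul a2 a3 (by linarith) (by linarith)
  · have h4 := Real.tendsto_pow_mul_exp_neg_atTop_nhds_zero e
    have : c / c' ≤ 0 := by
      refine le_of_tendsto_of_tendsto h3 h4 ?_
      filter_upwards [eventually_ge_atTop 0] with s hs
      have a1 : Real.exp (-s) ≤ 1 := Real.exp_le_one_iff.2 (by linarith)
      have a2 : Real.exp (-s) ^ (m' - m) ≤ Real.exp (-s) ^ (1 : ℤ) :=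
        zpow_le_zpow_right_of_le_one₀ (Real.exp_pos _) a1 hk
      rw [zpow_one] at a2
      rw [mul_comm]
      exact mul_le_mul_of_nonneg_left a2 (pow_nonneg hs _)
    linarith

/-- The radius ending at `z₀`. -/
noncomputable def ray (z₀ : ℂ) (t : ℝ) : ℂ := z₀ - t * z₀

theorem continuous_ray (z₀ : ℂ) : Continuous (ray z₀) := by
  unfold ray
  fun_prop

theorem ray_tendsto' (z₀ : ℂ) : Tendsto (ray z₀) (𝓝[>] 0) (𝓝 z₀) := by
  have := (continuous_ray z₀).tendsto 0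
  rw [show ray z₀ 0 = z₀ by simp [ray]] at this
  exact this.mono_left nhdsWithin_le_nhds

theorem ray_tendsto {z₀ : ℂ} (h : z₀ ≠ 0) : Tendsto (ray z₀) (𝓝[>] 0) (𝓝[≠] z₀) := by
  refine tendsto_nhdsWithin_iff.2 ⟨ray_tendsto' z₀, ?_⟩
  filter_upwards [self_mem_nhdsWithin] with t ht
  have : (t : ℂ) ≠ 0 := Complex.ofReal_ne_zero.2 (ne_of_gt ht)
  simp [ray, this, h]

theorem ray_mem {z₀ : ℂ} (h : z₀ ≠ 0) : ∀ᶠ t in 𝓝[>] (0 : ℝ), ray z₀ t ∈ ball (0 : ℂ) ‖z₀‖ := by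
  filter_upwards [Ioo_mem_nhdsGT one_pos] with t ht
  have : ray z₀ t = ((1 - t : ℝ) : ℂ) * z₀ := by
    simp only [ray]
    push_cast
    ring
  rw [mem_ball_zero_iff, this, norm_mul, Complex.norm_real, Real.norm_eq_abs,
    abs_of_pos (by linarith [ht.2])]
  have := norm_pos_iff.2 h
  nlinarith [ht.1]

theorem ray_form {f : ℂ → ℂ} {z₀ : ℂ} (h : z₀ ≠ 0) (hf : MeromorphicAt f z₀) {n : ℤ}
    (hn : meromorphicOrderAt f z₀ = n) :
    ∃ w : ℂ, w ≠ 0 ∧ Tendsto (fun t : ℝ => f (ray z₀ t) / (t : ℂ) ^ n) (𝓝[>] 0) (𝓝 w) := by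
  obtain ⟨g, hg, hg0, hfg⟩ := (meromorphicOrderAt_eq_int_iff hf).1 hn
  refine ⟨(-z₀) ^ n * g z₀, mul_ne_zero (zpow_ne_zero _ (neg_ne_zero.2 h)) hg0, ?_⟩
  refine ((hg.continuousAt.tendsto.comp (ray_tendsto' z₀)).const_mul ((-z₀) ^ n)).congr' ?_
  filter_upwards [(ray_tendsto h).eventually hfg, self_mem_nhdsWithin] with t ht ht0
  have a1 : (t : ℂ) ^ n ≠ 0 := zpow_ne_zero _ (Complex.ofReal_ne_zero.2 (ne_of_gt ht0))
  have a2 : ray z₀ t - z₀ = t * (-z₀) := by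
    simp only [ray]
    ring
  rw [ht, a2, mul_zpow, smul_eq_mul, Function.comp_apply]
  field_simp

theorem Pw.of_meromorphic {f : ℂ → ℂ} {z₀ : ℂ} (h : z₀ ≠ 0) (hf : MeromorphicAt f z₀)
    (hn : meromorphicOrderAt f z₀ ≠ ⊤) : Pw (fun t => ‖f (ray z₀ t)‖) 0 := by
  obtain ⟨n, hn⟩ := WithTop.ne_top_iff_exists.1 hn
  obtain ⟨w, hw, h1⟩ := ray_form h hf hn.symm
  refine ⟨n, ‖w‖, norm_pos_iff.2 hw, h1.norm.congr' ?_⟩
  filter_upwards [self_mem_nhdsWithin] with t ht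
  rw [norm_div, norm_zpow, Complex.norm_real, Real.norm_eq_abs, abs_of_pos ht, pow_zero, mul_one]

theorem lift_unique {s : Set ℝ} (hs : IsPreconnected s) {g₁ g₂ : ℝ → ℂ} (h₁ : ContinuousOn g₁ s)
    (h₂ : ContinuousOn g₂ s) (he : ∀ t ∈ s, exp (g₁ t) = exp (g₂ t)) {a : ℝ} (ha : a ∈ s)
    (h : g₁ a = g₂ a) : EqOn g₁ g₂ s :=
  Complex.isCoveringMap_exp.eqOn_of_comp_eqOn hs h₁ h₂ (fun t ht => Subtype.ext (he t ht)) ha h

theorem lift_tendsto {h : ℝ → ℂ} {w : ℂ} (hw : w ≠ 0)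
    (hc : ∀ᶠ t in 𝓝[>] (0 : ℝ), ContinuousAt h t)
    (hl : Tendsto (fun t => exp (h t)) (𝓝[>] 0) (𝓝 w)) :
    ∃ c : ℂ, Tendsto h (𝓝[>] 0) (𝓝 c) := by
  have h1 : Tendsto (fun t => exp (h t) / w) (𝓝[>] 0) (𝓝 1) := by
    simpa [div_self hw] using hl.div_const w
  have h2 : ∀ᶠ t in 𝓝[>] (0 : ℝ), exp (h t) / w ∈ slitPlane :=
    h1.eventually (Complex.isOpen_slitPlane.mem_nhds Complex.one_mem_slitPlane)
  obtain ⟨δ, hδ, h3⟩ := (nhdsGT_basis (0 : ℝ)).eventually_iff.1 (hc.and h2)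
  have ha : δ / 2 ∈ Ioo 0 δ := ⟨by linarith, by linarith⟩
  set c := h (δ / 2) - log (exp (h (δ / 2)) / w) with hc'
  have hec : exp c = w := by
    rw [hc', Complex.exp_sub, Complex.exp_log (div_ne_zero (Complex.exp_ne_zero _) hw)]
    field_simp
  have h4 : EqOn h (fun t => log (exp (h t) / w) + c) (Ioo 0 δ) := by
    refine lift_unique isPreconnected_Ioo (fun t ht => (h3 ht).1.continuousWithinAt)
      (fun t ht => ContinuousAt.continuousWithinAt ?_) (fun t _ => ?_) ha (by simp [hc'])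
    · exact (((h3 ht).1.cexp.div_const w).clog (h3 ht).2).add continuousAt_const
    · rw [Complex.exp_add, Complex.exp_log (div_ne_zero (Complex.exp_ne_zero _) hw), hec]
      field_simp
  refine ⟨log 1 + c, Tendsto.congr' ?_ ((h1.clog Complex.one_mem_slitPlane).add_const c)⟩
  filter_upwards [Ioo_mem_nhdsGT hδ] with t ht
  exact (h4 ht).symm

theorem Pw.of_log {H : ℝ → ℂ} {n : ℤ} {w : ℂ} (hw : w ≠ 0)
    (hc : ∀ᶠ t in 𝓝[>] (0 : ℝ), ContinuousAt H t)
    (hl : Tendsto (fun t : ℝ => exp (H t) / (t : ℂ) ^ n) (𝓝[>] 0) (𝓝 w))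
    (hs : Pw (fun t => ‖sinh (H t)‖) 0) : Pw (fun t => ‖H t‖) (if n = 0 then 0 else 1) := by
  obtain ⟨c, hlim⟩ := lift_tendsto (h := fun t => H t - n * (Real.log t : ℂ)) hw (by
    filter_upwards [hc, self_mem_nhdsWithin] with t ht ht0
    exact ht.sub (continuousAt_const.mul
      (Complex.continuous_ofReal.continuousAt.comp (Real.continuousAt_log (ne_of_gt ht0)))))
    (hl.congr' (by
      filter_upwards [self_mem_nhdsWithin] with t ht
      rw [Complex.exp_sub, Complex.exp_int_mul, ← Complex.ofReal_exp, Real.exp_log ht]))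
  split_ifs with hn
  · simp only [hn, Int.cast_zero, zero_mul, sub_zero] at hlim
    rcases eq_or_ne c 0 with rfl | hc0
    · have h1 : Tendsto H (𝓝[>] 0) (𝓝[≠] 0) := by
        refine tendsto_nhdsWithin_iff.2 ⟨hlim, ?_⟩
        filter_upwards [hs.ne_zero] with t ht h0
        exact ht (by simp [mem_singleton_iff.1 h0])
      have h2 := ((Complex.hasDerivAt_sinh 0).tendsto_slope_zero.comp h1).norm.inv₀ (by simp)
      have h3 := (Pw.of_tendsto (by simp) h2).mul hs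
      refine h3.congr ?_
      filter_upwards [hs.ne_zero] with t ht
      simp only [Function.comp_apply, zero_add, Complex.sinh_zero, sub_zero, smul_eq_mul,
        norm_mul, norm_inv, mul_inv, inv_inv]
      field_simp
    · exact Pw.of_tendsto (norm_pos_iff.2 hc0) hlim.norm
  · have h1 : Tendsto (fun t : ℝ => (Real.log t)⁻¹) (𝓝[>] 0) (𝓝 0) :=
      tendsto_inv_atBot_zero.comp Real.tendsto_log_nhdsGT_zero
    have h2 := (Complex.continuous_ofReal.tendsto 0).comp h1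
    have h3 := ((hlim.mul h2).add_const (n : ℂ)).norm
    refine ⟨0, _, ?_, h3.congr' ?_⟩
    · simpa using hn
    · filter_upwards [Ioo_mem_nhdsGT one_pos] with t ht
      have a1 : Real.log t < 0 := Real.log_neg ht.1 ht.2
      have a2 : (Real.log t : ℂ) ≠ 0 := Complex.ofReal_ne_zero.2 a1.ne
      have a3 : (H t - n * (Real.log t : ℂ)) * (((Real.log t)⁻¹ : ℝ) : ℂ) + n
          = H t / (Real.log t : ℂ) := by
        rw [Complex.ofReal_inv]
        field_simp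
        ring
      simp only [Function.comp_apply]
      rw [a3, norm_div, Complex.norm_real, Real.norm_eq_abs, abs_of_neg a1]
      simp

end Pool.Agent.P.MP_1ad12f_an
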