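import Pool.Agent.P.MP_1ad12f_an.PW

set_option autoImplicit false

open MeasureTheory Complex Filter Topology Metric Set
open scoped Real

namespace Pool.Agent.P.MP_1ad12f_an

theorem ExpType.log_le {f : ℂ → ℂ} (hf : ExpType f) :
    ∃ B c : ℝ, 0 ≤ B ∧ 0 ≤ c ∧ ∀ z, Real.log ‖f z‖ ≤ B + c * ‖z‖ := by
  obtain ⟨-, A, c, hc, h⟩ := hf
  have hB : 0 ≤ Real.log (max A 1) := Real.log_nonneg (le_max_right _ _)
  refine ⟨Real.log (max A 1), c, hB, hc, fun z => ?_⟩
  rcases eq_or_ne (f z) 0 with h0 | h0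
  · rw [h0, norm_zero, Real.log_zero]
    positivity
  · have h1 : ‖f z‖ ≤ max A 1 * Real.exp (c * ‖z‖) :=
      (h z).trans (mul_le_mul_of_nonneg_right (le_max_left _ _) (Real.exp_pos _).le)
    have h2 := Real.log_le_log (norm_pos_iff.2 h0) h1
    rwa [Real.log_mul (by positivity) (Real.exp_pos _).ne', Real.log_exp] at h2

theorem ExpType.add_mul {f g : ℂ → ℂ} (hf : ExpType f) (hg : ExpType g) (a : ℂ) (ha : ‖a‖ = 1) :
    ExpType fun z => f z + a * g z := by
  obtain ⟨hf, A, c, hc, h⟩ := hf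
  obtain ⟨hg, A', c', hc', h'⟩ := hg
  refine ⟨hf.add (hg.const_mul a), |A| + |A'|, c + c', by positivity, fun z => ?_⟩
  have e1 : Real.exp (c * ‖z‖) ≤ Real.exp ((c + c') * ‖z‖) := by
    gcongr
    linarith
  have e2 : Real.exp (c' * ‖z‖) ≤ Real.exp ((c + c') * ‖z‖) := by
    gcongr
    linarith
  calc ‖f z + a * g z‖ ≤ ‖f z‖ + ‖g z‖ := by
        simpa [norm_mul, ha] using norm_add_le (f z) (a * g z)
    _ ≤ |A| * Real.exp ((c + c') * ‖z‖) + |A'| * Real.exp ((c + c') * ‖z‖) :=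
        add_le_add ((h z).trans (mul_le_mul (le_abs_self _) e1 (Real.exp_pos _).le (abs_nonneg _)))
          ((h' z).trans (mul_le_mul (le_abs_self _) e2 (Real.exp_pos _).le (abs_nonneg _)))
    _ = _ := by ring

theorem entire_order_ne_top {Q : ℂ → ℂ} (hQ : Differentiable ℂ Q) (h0 : Q 0 ≠ 0) (z : ℂ) :
    meromorphicOrderAt Q z ≠ ⊤ := by
  have hm : MeromorphicOn Q univ := fun w _ => (hQ.analyticAt w).meromorphicAt
  refine hm.meromorphicOrderAt_ne_top_of_isPreconnected isPreconnected_univ (mem_univ 0)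
    (mem_univ z) ?_
  rw [((hQ.analyticAt 0).meromorphicNFAt.meromorphicOrderAt_eq_zero_iff).2 h0]
  simp

theorem entire_ne_zero {Q : ℂ → ℂ} (hQ : Differentiable ℂ Q) (h0 : Q 0 ≠ 0) (z : ℂ) :
    ∀ᶠ w in 𝓝[≠] z, Q w ≠ 0 :=
  (meromorphicOrderAt_ne_top_iff_eventually_ne_zero (hQ.analyticAt z).meromorphicAt).1
    (entire_order_ne_top hQ h0 z)

theorem jensen_lower {Q : ℂ → ℂ} (hQ : Differentiable ℂ Q) (h0 : Q 0 ≠ 0) {R : ℝ} (hR : 0 < R) :
    Real.log ‖Q 0‖ ≤ Real.circleAverage (fun z => Real.log ‖Q z‖) 0 R := by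
  have ha : AnalyticOnNhd ℂ Q (closedBall 0 |R|) := fun w _ => hQ.analyticAt w
  rw [ha.circleAverage_log_norm hR.ne' h0, le_add_iff_nonneg_left]
  refine finsum_nonneg fun u => ?_
  by_cases hu : u ∈ closedBall (0 : ℂ) |R|
  · refine mul_nonneg (by exact_mod_cast MeromorphicOn.AnalyticOnNhd.divisor_nonneg ha u) ?_
    rcases eq_or_ne u 0 with rfl | hu0
    · simp
    · apply Real.log_nonneg
      rw [zero_sub, norm_neg, ← div_eq_mul_inv, le_div_iff₀ (norm_pos_iff.2 hu0), one_mul]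
      rwa [mem_closedBall_zero_iff, abs_of_pos hR] at hu
  · rw [Function.locallyFinsuppWithin.apply_eq_zero_of_notMem _ hu]
    simp

theorem re_le_of_quot {P Q H : ℂ → ℂ} (hP : Differentiable ℂ P) (hQ : Differentiable ℂ Q)
    (hH : Differentiable ℂ H) (h : ∀ z, P z = exp (H z) * Q z) (h0 : Q 0 ≠ 0) {R B : ℝ}
    (hR : 0 < R) (hB : ∀ z ∈ sphere (0 : ℂ) R, Real.log ‖P z‖ ≤ B ∧ Real.log ‖Q z‖ ≤ B)
    {w : ℂ} (hw : ‖w‖ < R / 2) : (H w).re ≤ 3 * (B - Real.log ‖Q 0‖) := by
  have hw' : w ∈ ball (0 : ℂ) R := mem_ball_zero_iff.2 (by linarith)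
  have habs : |R| = R := abs_of_pos hR
  set K : ℂ → ℝ := re ∘ herglotzRieszKernel 0 w with hK
  have hKc : ContinuousOn K (sphere 0 |R|) :=
    Complex.continuous_re.comp_continuousOn (continuousOn_herglotzRieszKernel_sphere hw')
  have h1 : Real.circleAverage (K • H) 0 R = H w :=
    hH.diffContOnCl.circleAverage_re_herglotzRieszKernel_smul hw'
  have hint : CircleIntegrable (K • H) 0 R :=
    (hH.continuous.continuousOn.circleIntegrable hR.le).continuousOn_smul hKc
  have h2 := Complex.reCLM.circleAverage_comp_comm hint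
  rw [h1] at h2
  have iP : CircleIntegrable (fun z => Real.log ‖P z‖) 0 R :=
    MeromorphicOn.circleIntegrable_log_norm fun z _ => (hP.analyticAt z).meromorphicAt
  have iQ : CircleIntegrable (fun z => Real.log ‖Q z‖) 0 R :=
    MeromorphicOn.circleIntegrable_log_norm fun z _ => (hQ.analyticAt z).meromorphicAt
  have h3 : Real.circleAverage (Complex.reCLM ∘ (K • H)) 0 R
      = Real.circleAverage (K • fun z => Real.log ‖P z‖ - Real.log ‖Q z‖) 0 R := by
    refine Real.circleAverage_congr_codiscreteWithin ?_ hR.ne'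
    have hm : MeromorphicOn Q (sphere 0 |R|) := fun z _ => (hQ.analyticAt z).meromorphicAt
    filter_upwards [hm.eventually_codiscreteWithin_apply_ne_zero
      fun z _ => entire_order_ne_top hQ h0 z] with z hz
    have : Real.log ‖P z‖ = (H z).re + Real.log ‖Q z‖ := by
      rw [h z, norm_mul, Complex.norm_exp, Real.log_mul (Real.exp_pos _).ne'
        (norm_ne_zero_iff.2 hz), Real.log_exp]
    simp [this]
  have i3 : CircleIntegrable (fun z => B - Real.log ‖Q z‖) 0 R :=
    (circleIntegrable_const B 0 R).sub iQ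
  have h4 : Real.circleAverage (K • fun z => Real.log ‖P z‖ - Real.log ‖Q z‖) 0 R
      ≤ Real.circleAverage (fun z => (3 : ℝ) • (B - Real.log ‖Q z‖)) 0 R := by
    refine Real.circleAverage_mono ((iP.sub iQ).continuousOn_smul hKc) (i3.const_smul) ?_
    intro z hz
    rw [habs] at hz
    have k1 := re_herglotzRieszKernel_le hz hw'
    have k2 := le_re_herglotzRieszKernel hz hw'
    have k3 : K z = ((z - 0 + (w - 0)) / ((z - 0) - (w - 0))).re := by
      simp [hK, herglotzRieszKernel_def]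
    rw [← k3, sub_zero] at k1 k2
    have k4 : 0 ≤ K z := le_trans (div_nonneg (by linarith) (by positivity)) k2
    have k5 : K z ≤ 3 := k1.trans (by rw [div_le_iff₀ (by linarith)]; linarith)
    obtain ⟨b1, b2⟩ := hB z hz
    simp only [Pi.smul_apply', smul_eq_mul]
    nlinarith
  rw [Real.circleAverage_fun_smul, Real.circleAverage_fun_sub (circleIntegrable_const B 0 R) iQ,
    Real.circleAverage_const] at h4
  have h5 := jensen_lower hQ h0 hR
  have h6 : (H w).re = Complex.reCLM (H w) := rfl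
  rw [h6, ← h2, h3]
  refine h4.trans ?_
  rw [smul_eq_mul]
  linarith

theorem affine_of_quot {P Q H : ℂ → ℂ} (hP : ExpType P) (hQ : ExpType Q)
    (hH : Differentiable ℂ H) (h : ∀ z, P z = exp (H z) * Q z) (h0 : Q 0 ≠ 0) :
    ∃ l : ℂ, ∀ z, H z = H 0 + l * z := by
  obtain ⟨B, c, hB, hc, h1⟩ := hP.log_le
  obtain ⟨B', c', hB', hc', h2⟩ := hQ.log_le
  set D := B + B' + |Real.log ‖Q 0‖| + 1 with hD
  set e := c + c' with he
  have hD0 : 0 < D := by positivity
  have he0 : 0 ≤ e := by positivity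
  have h3 : ∀ r : ℝ, 0 < r → ∀ w ∈ ball (0 : ℂ) r, (H w).re ≤ 3 * (D + 2 * e * r) := by
    intro r hr w hw
    have := re_le_of_quot hP.1 hQ.1 hH h h0 (R := 2 * r) (B := B + B' + e * (2 * r))
      (by positivity) (fun z hz => by
        have hz' : ‖z‖ = 2 * r := by simpa using hz
        have a1 := h1 z
        have a2 := h2 z
        rw [hz'] at a1 a2
        constructor <;> nlinarith [mul_nonneg hc hr.le, mul_nonneg hc' hr.le])
      (w := w) (by have := mem_ball_zero_iff.1 hw; linarith)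
    have a3 := neg_abs_le (Real.log ‖Q 0‖)
    nlinarith
  have h4 : ∀ r : ℝ, 0 < r → ∀ z : ℂ, ‖z‖ ≤ r → ‖H z‖ ≤ 6 * (D + 4 * e * r) + 3 * ‖H 0‖ := by
    intro r hr z hz
    have := Complex.borelCaratheodory (f := H) (M := 3 * (D + 2 * e * (2 * r))) (R := 2 * r)
      (z := z) (by positivity) hH.differentiableOn (fun w hw => h3 (2 * r) (by positivity) w hw)
      (by positivity) (mem_ball_zero_iff.2 (by linarith))
    refine this.trans (add_le_add ?_ ?_)
    · rw [div_le_iff₀ (by linarith)]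
      have : 0 ≤ D + 4 * e * r := by positivity
      nlinarith
    · rw [div_le_iff₀ (by linarith)]
      nlinarith [norm_nonneg (H 0), norm_nonneg z]
  have h5 : ∀ a : ℂ, ‖deriv H a‖ ≤ 6 * (D + 8 * e) + 3 * ‖H 0‖ := by
    intro a
    have hr : 0 < ‖a‖ + 1 := by positivity
    have := Complex.norm_deriv_le_of_forall_mem_sphere_norm_le (f := H) (c := a) hr
      hH.diffContOnCl (C := 6 * (D + 4 * e * (2 * (‖a‖ + 1))) + 3 * ‖H 0‖) (fun z hz => by
        refine h4 _ (by positivity) z ?_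
        have := norm_le_norm_add_norm_sub' z a
        rw [mem_sphere_iff_norm.1 hz] at this
        linarith)
    refine this.trans ?_
    rw [div_le_iff₀ hr]
    nlinarith [norm_nonneg (H 0), norm_nonneg a, mul_nonneg hD0.le (norm_nonneg a),
      mul_nonneg (norm_nonneg (H 0)) (norm_nonneg a)]
  have h6 : ∀ a : ℂ, deriv H a = deriv H 0 := fun a =>
    hH.deriv.apply_eq_apply_of_bounded
      (isBounded_iff_forall_norm_le.2 ⟨_, by rintro _ ⟨b, rfl⟩; exact h5 b⟩) a 0
  refine ⟨deriv H 0, fun z => ?_⟩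
  have h7 := is_const_of_deriv_eq_zero (𝕜 := ℂ) (f := fun z => H z - deriv H 0 * z)
    (by fun_prop) (fun a => by
      have := ((hH a).hasDerivAt.fun_sub ((hasDerivAt_id a).const_mul (deriv H 0))).deriv
      simpa [h6 a] using this) z 0
  simp only [mul_zero, sub_zero] at h7
  linear_combination h7

end Pool.Agent.P.MP_1ad12f_an
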