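import Pool.Agent.P.MP_1ad12f_an.Bridge
import Pool.Agent.P.MP_1ad12f_an.Cx

set_option autoImplicit false

open MeasureTheory FourierTransform Complex Filter Topology Metric Function
open scoped ContDiff Real InnerProductSpace

namespace Pool.Agent.P.MP_1ad12f_an

variable {d : ℕ}

/-- One-dimensional inverse Fourier integral. -/
noncomputable def T (ρ : ℝ → ℂ) (s : ℝ) : ℂ := ∫ t : ℝ, exp (((2 * π * (t * s) : ℝ) : ℂ) * I) * ρ t

theorem bandlimited_prod {ρ : Fin d → ℝ → ℂ} (h1 : ∀ j, Measurable (ρ j))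
    (h2 : ∀ j t, ‖ρ j t‖ ≤ 1) (h3 : ∀ j t, 1 < |t| → ρ j t = 0) :
    Bandlimited fun x : E d => ∏ j, T (ρ j) (x j) := by
  have h4 : ∀ v : E d, √d < ‖v‖ → ∏ j, ρ j (v j) = 0 := by
    intro v hv
    by_contra h
    refine absurd hv (not_lt.2 ?_)
    rw [EuclideanSpace.norm_eq]
    refine Real.sqrt_le_sqrt ?_
    calc ∑ j, ‖v j‖ ^ 2 ≤ ∑ _j : Fin d, (1 : ℝ) := Finset.sum_le_sum fun j _ => by
          refine pow_le_one₀ (norm_nonneg _) (not_lt.1 fun hj => h ?_)
          exact Finset.prod_eq_zero (Finset.mem_univ j) (h3 j _ hj)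
      _ = d := by simp
  have h5 : MemLp (fun v : E d => ∏ j, ρ j (v j)) 2 volume := by
    refine (memLp_indicator_const 2 (measurableSet_closedBall (x := (0 : E d)) (ε := √d)) (1 : ℝ)
      (Or.inr measure_closedBall_lt_top.ne)).mono'
      (Finset.measurable_prod _ fun j _ => (h1 j).comp (by fun_prop)).aestronglyMeasurable
      (Eventually.of_forall fun v => ?_)
    rcases lt_or_ge (√d) ‖v‖ with h | h
    · rw [h4 v h, norm_zero]
      exact Set.indicator_nonneg (fun _ _ => zero_le_one) v
    · rw [Set.indicator_of_mem (by simpa using h), norm_prod]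
      exact Finset.prod_le_one (fun j _ => norm_nonneg _) fun j _ => h2 j _
  have h6 : (fun x : E d => ∏ j, T (ρ j) (x j)) = 𝓕⁻ fun v : E d => ∏ j, ρ j (v j) := by
    ext x
    rw [fourierInv_ch, ← (PiLp.volume_preserving_toLp (Fin d)).integral_comp
      (MeasurableEquiv.toLp 2 _).measurableEmbedding]
    simp only [T]
    rw [← integral_fintype_prod_volume_eq_prod]
    congr 1
    ext v
    rw [Finset.prod_mul_distrib, ← Complex.exp_sum, ch]
    congr 2
    simp [PiLp.inner_apply, Finset.mul_sum, mul_comm]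
  rw [h6]
  exact bandlimited_of h5 h4

/-- The indicator function of `[0, 1]`. -/
noncomputable def box : ℝ → ℂ := (Set.Icc (0 : ℝ) 1).indicator fun _ => 1

theorem box_measurable : Measurable box := measurable_const.indicator measurableSet_Icc

theorem box_norm (t : ℝ) : ‖box t‖ ≤ 1 := by
  unfold box
  exact (norm_indicator_le_norm_self _ _).trans (by simp)

theorem box_zero {t : ℝ} (h : 1 < |t|) : box t = 0 :=
  Set.indicator_of_notMem (fun ht => absurd (abs_le.2 ⟨by linarith [ht.1], ht.2⟩) (not_le.2 h)) _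

theorem box_integrable : Integrable box :=
  (integrable_indicator_iff measurableSet_Icc).2 (integrableOn_const (by simp))

theorem T_box (s : ℝ) : T box s = ∫ t in (0 : ℝ)..1, exp (((2 * π * s : ℝ) : ℂ) * I * t) := by
  rw [intervalIntegral.integral_of_le zero_le_one, ← integral_Icc_eq_integral_Ioc,
    ← integral_indicator measurableSet_Icc, T]
  congr 1
  ext t
  by_cases h : t ∈ Set.Icc (0 : ℝ) 1
  · simp only [box, Set.indicator_of_mem h, mul_one]
    congr 1
    push_cast
    ring
  · simp [box, h]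

theorem T_box_mul (s : ℝ) :
    ((2 * π * s : ℝ) : ℂ) * I * T box s = exp (((2 * π * s : ℝ) : ℂ) * I) - 1 := by
  rcases eq_or_ne (((2 * π * s : ℝ) : ℂ) * I) 0 with h | h
  · rw [h]
    simp
  · rw [T_box, integral_exp_mul_complex h, mul_div_cancel₀ _ h]
    simp

theorem T_box_neg (s : ℝ) : T (fun t => box (-t)) s = (starRingEnd ℂ) (T box s) := by
  rw [T, T, ← integral_conj, ← integral_neg_eq_self]
  congr 1
  ext t
  have : (starRingEnd ℂ) (box t) = box t := by
    by_cases h : t ∈ Set.Icc (0 : ℝ) 1 <;> simp [box, h]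
  rw [map_mul, this, neg_neg, ← Complex.exp_conj, map_mul, conj_ofReal, conj_I]
  congr 2
  push_cast
  ring

theorem T_comb (p q : ℂ) (s : ℝ) : T (fun t => p * box t + q * box (-t)) s
    = p * T box s + q * (starRingEnd ℂ) (T box s) := by
  have k : ∀ {ρ : ℝ → ℂ}, Integrable ρ →
      Integrable fun t : ℝ => exp (((2 * π * (t * s) : ℝ) : ℂ) * I) * ρ t := fun h =>
    h.bdd_mul (c := 1) (Continuous.aestronglyMeasurable (by fun_prop))
      (Eventually.of_forall fun t => (Complex.norm_exp_ofReal_mul_I _).le)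
  rw [← T_box_neg, T, T, T, ← integral_const_mul, ← integral_const_mul,
    ← integral_add ((k box_integrable).const_mul p) ((k box_integrable.comp_neg).const_mul q)]
  congr 1
  ext t
  ring

theorem phase (s : ℝ) : ((T box s).re : ℂ) + I * (T box s).im
    = exp (((2 * π * s : ℝ) : ℂ) * I) * ((T box s).re + (-I) * (T box s).im) := by
  have h1 := T_box_mul s
  have h2 := congrArg (starRingEnd ℂ) h1
  rw [map_sub, ← Complex.exp_conj, map_mul, map_mul, conj_ofReal, conj_I, map_one, mul_neg,
    Complex.exp_neg] at h2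
  have h3 : ((T box s).re : ℂ) + I * (T box s).im = T box s := by
    rw [mul_comm, re_add_im]
  have h4 : ((T box s).re : ℂ) + (-I) * (T box s).im = (starRingEnd ℂ) (T box s) := by
    apply Complex.ext <;> simp
  rw [h3, h4]
  rcases eq_or_ne (((2 * π * s : ℝ) : ℂ) * I) 0 with h | h
  · rw [T_box, h]
    simp
  · apply mul_left_cancel₀ h
    have h5 := mul_inv_cancel₀ (Complex.exp_ne_zero (((2 * π * s : ℝ) : ℂ) * I))
    linear_combination h1 + exp (((2 * π * s : ℝ) : ℂ) * I) * h2 + h5

theorem sinc (s : ℝ) : (T box s).re * (2 * π * s) = Real.sin (2 * π * s) := by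
  have h1 := congrArg im (T_box_mul s)
  rw [sub_im, exp_ofReal_mul_I_im, mul_assoc, im_ofReal_mul] at h1
  simpa [mul_comm] using h1

/-- The test family. -/
noncomputable def fam (d : ℕ) : Fin (d + 1) → E d → ℝ :=
  Fin.cases (fun x => ∏ j, (T box (x j)).re)
    fun k x => ∏ j, if j = k then (T box (x j)).im else (T box (x j)).re

theorem fam_bandlimited (i : Fin (d + 1)) : Bandlimited fun x => (fam d i x : ℂ) := by
  have k : ∀ p q : Fin d → ℂ, (∀ j, ‖p j‖ = 1 / 2) → (∀ j, ‖q j‖ = 1 / 2) → Bandlimited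
      fun x : E d => ∏ j, (p j * T box (x j) + q j * (starRingEnd ℂ) (T box (x j))) := by
    intro p q hp hq
    simp only [← T_comb]
    refine bandlimited_prod (ρ := fun j t => p j * box t + q j * box (-t))
      (fun j => (box_measurable.const_mul _).add
        ((box_measurable.comp measurable_neg).const_mul _)) (fun j t => ?_) fun j t ht => ?_
    · refine (norm_add_le _ _).trans ?_
      rw [norm_mul, norm_mul, hp, hq]
      linarith [box_norm t, box_norm (-t)]
    · rw [box_zero ht, box_zero (by rwa [abs_neg]), mul_zero, mul_zero, add_zero]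
  have e1 : ∀ z : ℂ, (z.re : ℂ) = 1 / 2 * z + 1 / 2 * (starRingEnd ℂ) z := fun z => by
    rw [Complex.re_eq_add_conj]
    ring
  have e2 : ∀ z : ℂ, (z.im : ℂ) = -I / 2 * z + I / 2 * (starRingEnd ℂ) z := fun z => by
    have := Complex.sub_conj z
    push_cast at this
    linear_combination (I / 2) * this + (z.im : ℂ) * Complex.I_mul_I
  refine Fin.cases ?_ (fun i => ?_) i
  · simp only [fam, Fin.cases_zero, Complex.ofReal_prod, e1]
    exact k _ _ (fun _ => by simp) fun _ => by simp
  · have := k (fun j => if j = i then -I / 2 else 1 / 2) (fun j => if j = i then I / 2 else 1 / 2)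
      (fun j => by split_ifs <;> simp) fun j => by split_ifs <;> simp
    refine Eq.subst (motive := Bandlimited) (funext fun x => ?_) this
    simp only [fam, Fin.cases_succ, Complex.ofReal_prod]
    refine Finset.prod_congr rfl fun j _ => ?_
    split_ifs
    · exact (e2 _).symm
    · exact (e1 _).symm

theorem line_affine {γ : E d → E d} (hc : Continuous γ)
    (hs : ∀ i, CompactSpectrum fun x => (fam d i (γ x) : ℂ)) {x : E d}
    (hx : ∀ j, Real.sin (2 * π * γ x j) ≠ 0) (v : E d) (t : ℝ) :
    γ (x + t • v) = γ x + t • (γ (x + v) - γ x) := by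
  have h1 : ∀ i, ∃ Φ, ExpType Φ ∧ ∀ t : ℝ, Φ t = (fam d i (γ (x + t • v)) : ℂ) := fun i => by
    obtain ⟨M, hM⟩ := (fam_bandlimited i).wien.bound
    exact paley_wiener ((fam_bandlimited i).1.comp hc) (fun y => hM (γ y)) (hs i) x v
  choose Φ h2 h3 using h1
  ext j
  obtain ⟨l, hl⟩ := affine_of_phases (g := fun j t => 2 * π * γ (x + t • v) j)
    (fun j => by fun_prop) (h2 0) (fun j => h2 j.succ) (fun k t => by
      have a1 : ∀ y : E d, fam d k.succ y
          = (T box (y k)).im * ∏ j ∈ Finset.univ.erase k, (T box (y j)).re := fun y => by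
        simp only [fam, Fin.cases_succ]
        rw [← Finset.mul_prod_erase _ _ (Finset.mem_univ k), if_pos rfl]
        congr 1
        exact Finset.prod_congr rfl fun j hj => if_neg (Finset.ne_of_mem_erase hj)
      have a2 : ∀ y : E d, fam d 0 y
          = (T box (y k)).re * ∏ j ∈ Finset.univ.erase k, (T box (y j)).re := fun y => by
        simp only [fam, Fin.cases_zero]
        rw [← Finset.mul_prod_erase _ _ (Finset.mem_univ k)]
      rw [h3, h3, a1, a2, Complex.ofReal_mul, Complex.ofReal_mul]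
      linear_combination ((∏ j ∈ Finset.univ.erase k, (T box (γ (x + t • v) j)).re : ℝ) : ℂ)
        * phase (γ (x + t • v) k))
    (fun t => by
      rw [h3]
      simp only [fam, Fin.cases_zero, ← Complex.ofReal_sin, ← sinc, ← Complex.ofReal_prod,
        ← Complex.ofReal_mul, Finset.prod_mul_distrib])
    (fun j => by
      rw [← Complex.ofReal_sin, Complex.ofReal_ne_zero]
      simpa using hx j) j
  have h4 := hl t
  have h5 := hl 1
  simp only [zero_smul, add_zero, one_smul, mul_one] at h4 h5
  apply mul_left_cancel₀ (mul_ne_zero two_ne_zero Real.pi_ne_zero)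
  simp only [PiLp.add_apply, PiLp.smul_apply, PiLp.sub_apply, smul_eq_mul]
  linear_combination h4 - t * h5

theorem affine_of_lines {γ : E d → E d} (hb : Bijective γ) {U : Set (E d)} {p : E d}
    (hU : U ∈ 𝓝 p) (h : ∀ x ∈ U, ∀ (v : E d) (t : ℝ),
      γ (x + t • v) = γ x + t • (γ (x + v) - γ x)) : IsAffine γ := by
  have h1 : ∀ (t : ℝ) (v : E d), γ (p + t • v) - γ p = t • (γ (p + v) - γ p) := fun t v => by
    rw [h p (mem_of_mem_nhds hU), add_sub_cancel_left]
  have h2 : ∀ u v : E d, γ (p + (u + v)) - γ p = (γ (p + u) - γ p) + (γ (p + v) - γ p) := by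
    intro u v
    have a1 : Tendsto (fun e : ℝ => p + e • u) (𝓝[≠] 0) (𝓝 p) := by
      have : Continuous fun e : ℝ => p + e • u := by fun_prop
      simpa using (this.tendsto 0).mono_left nhdsWithin_le_nhds
    obtain ⟨e, a2, a3⟩ := ((a1.eventually hU).and self_mem_nhdsWithin).exists
    have a4 := h _ a2 (e • v - e • u) (1 / 2)
    have a5 : p + e • u + (1 / 2 : ℝ) • (e • v - e • u) = p + (e / 2) • (u + v) := by module
    have a6 : p + e • u + (e • v - e • u) = p + e • v := by module
    rw [a5, a6] at a4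
    have a7 := h1 (e / 2) (u + v)
    have a8 := h1 e u
    have a9 := h1 e v
    apply smul_right_injective _ (show e / 2 ≠ 0 from div_ne_zero a3 two_ne_zero)
    linear_combination (norm := module) a4 - a7 + (1 / 2 : ℝ) • a8 + (1 / 2 : ℝ) • a9
  let L : E d →ₗ[ℝ] E d := ⟨⟨fun v => γ (p + v) - γ p, h2⟩, h1⟩
  have h3 : Bijective L :=
    (Equiv.subRight (γ p)).bijective.comp (hb.comp (Equiv.addLeft p).bijective)
  refine ⟨LinearEquiv.ofBijective L h3, γ p - L p, fun x => ?_⟩
  have h4 : L (x - p) = γ x - γ p := by simp [L]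
  rw [map_sub] at h4
  rw [LinearEquiv.ofBijective_apply]
  linear_combination (norm := module) -h4

theorem upper (d : ℕ) : TestFamily (fam d) := by
  refine ⟨fam_bandlimited, fun γ hc hb hs => ?_⟩
  obtain ⟨p, hp⟩ := hb.2 (WithLp.toLp 2 fun _ => 1 / 4)
  refine affine_of_lines hb (U := {x | ∀ j, Real.sin (2 * π * γ x j) ≠ 0}) (p := p) ?_
    fun x hx => line_affine hc hs hx
  refine eventually_all.2 fun j => ContinuousAt.eventually_ne (by fun_prop) ?_
  rw [hp, show 2 * π * (WithLp.toLp 2 fun _ : Fin d => (1 / 4 : ℝ)) j = π / 2 by simp only; ring]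
  simp

end Pool.Agent.P.MP_1ad12f_an
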